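import Mathlib

/-!
Definitions for Ulam's knot game on the box lattice `L(a,b,c)`.
-/

namespace Pool.Agent.Lib.MP_fb72b7_co

/-- Integer points of three-space. -/
abbrev Pt : Type := Fin 3 → ℤ

/-- Euclidean three-space. -/
abbrev Space : Type := EuclideanSpace ℝ (Fin 3)

/-- An integer point seen as a point of Euclidean three-space. -/
noncomputable def toSpace (v : Pt) : Space := WithLp.toLp 2 (fun m => (v m : ℝ))

/-- `v` is a vertex of the box `[0, n 0] × [0, n 1] × [0, n 2]`. -/
def InBox (n : Fin 3 → ℕ) (v : Pt) : Prop := ∀ m, 0 ≤ v m ∧ v m ≤ (n m : ℤ)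

/-- Two integer points are joined by an edge when their Euclidean distance is `1`. -/
def Adj (u v : Pt) : Prop := dist (toSpace u) (toSpace v) = 1

/-- `A` is ambient isotopic to `B`: there is a jointly continuous family `H t` (`0 ≤ t ≤ 1`) of
self-homeomorphisms of three-space with `H 0` the identity and `H 1` carrying `A` onto `B`. -/
def AmbientIsotopic (A B : Set Space) : Prop :=
  ∃ H : unitInterval → (Space ≃ₜ Space),
    Continuous (fun p : unitInterval × Space => H p.1 p.2) ∧ (∀ x, H 0 x = x) ∧ H 1 '' A = B

/-- A round circle: centre `c`, radius `r > 0`, in the plane spanned by orthonormal `u`, `v`. -/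
def IsRoundCircle (S : Set Space) : Prop :=
  ∃ (c u v : Space) (r : ℝ), 0 < r ∧ ‖u‖ = 1 ∧ ‖v‖ = 1 ∧ inner ℝ u v = 0 ∧
    S = Set.range (fun θ : ℝ => c + (r * Real.cos θ) • u + (r * Real.sin θ) • v)

/-- A curve is unknotted when it is ambient isotopic to a round circle. -/
def Unknotted (K : Set Space) : Prop := ∃ S, IsRoundCircle S ∧ AmbientIsotopic K S

/-- A curve is knotted when it is not ambient isotopic to a round circle. -/
def Knotted (K : Set Space) : Prop := ¬ Unknotted K

/-- The closed polygon `v i, v (i+1), …, v k, v i` as a subset of three-space. -/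
def polygon (v : ℕ → Pt) (i k : ℕ) : Set Space :=
  (⋃ j ∈ Set.Ico i k, segment ℝ (toSpace (v j)) (toSpace (v (j + 1)))) ∪
    segment ℝ (toSpace (v k)) (toSpace (v i))

/-- `Wins n goal mine k v`: the marked path is `v 0, v 1, …, v k` (fixed end `v 0`, growing end
`v k`; the values of `v` beyond `k` play no role), and the player who wants the final closed
polygon to have the property `goal` can force this against every play of the opponent.
`mine = true` says that this player is to move, `mine = false` that the opponent is to move.
The unmarked edges at `v k` are those to a path vertex `v i` with `i ≤ k - 2` (the game then stops)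
and those to a vertex `w` of the box that is not on the path (the path is extended to `w`). -/
inductive Wins (n : Fin 3 → ℕ) (goal : Set Space → Prop) : Bool → ℕ → (ℕ → Pt) → Prop
  | close (k : ℕ) (v : ℕ → Pt) (i : ℕ) (hi : i + 2 ≤ k) (hadj : Adj (v k) (v i))
      (hgoal : goal (polygon v i k)) : Wins n goal true k v
  | extend (k : ℕ) (v : ℕ → Pt) (w : Pt) (hbox : InBox n w) (hadj : Adj (v k) w)
      (hnew : ∀ j ≤ k, v j ≠ w)
      (hwin : Wins n goal false (k + 1) (Function.update v (k + 1) w)) : Wins n goal true k v
  | reply (k : ℕ) (v : ℕ → Pt)
      (hclose : ∀ i, i + 2 ≤ k → Adj (v k) (v i) → goal (polygon v i k))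
      (hextend : ∀ w, InBox n w → Adj (v k) w → (∀ j ≤ k, v j ≠ w) →
        Wins n goal true (k + 1) (Function.update v (k + 1) w)) : Wins n goal false k v

/-- The one-edge path with fixed end `u` and growing end `w`. -/
def start (u w : Pt) : ℕ → Pt := fun j => if j = 0 then u else w

/-- The player with objective `goal` has a winning strategy when moving first: this player marks an
edge `uw`, and wins whichever end of it the opponent chooses to extend. -/
def FirstWins (n : Fin 3 → ℕ) (goal : Set Space → Prop) : Prop :=
  ∃ u w, InBox n u ∧ InBox n w ∧ Adj u w ∧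
    Wins n goal false 1 (start u w) ∧ Wins n goal false 1 (start w u)

/-- The player with objective `goal` has a winning strategy when moving second: whichever edge `uw`
the opponent marks, this player can choose an end of it to extend and win. -/
def SecondWins (n : Fin 3 → ℕ) (goal : Set Space → Prop) : Prop :=
  ∀ u w, InBox n u → InBox n w → Adj u w →
    Wins n goal true 1 (start u w) ∨ Wins n goal true 1 (start w u)

end Pool.Agent.Lib.MP_fb72b7_co
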