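import Mathlib
import Pool.Agent.Lib.MP_fb72b7_co.Defs

-- part Pool.Agent.Lib.MP_fb72b7_co.Iso
section

/-!
Ambient isotopies: general facts and elementary moves in `ℝ × ℂ`.
-/

namespace Pool.Agent.Lib.MP_fb72b7_co

open Set

/-- Ambient isotopy of subsets of a space. -/
def Iso {X : Type*} [TopologicalSpace X] (A B : Set X) : Prop :=
  ∃ H : unitInterval → (X ≃ₜ X),
    Continuous (fun p : unitInterval × X => H p.1 p.2) ∧ (∀ x, H 0 x = x) ∧ H 1 '' A = B

section General

variable {X Y : Type*} [TopologicalSpace X] [TopologicalSpace Y]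

theorem Iso.trans {A B C : Set X} (h1 : Iso A B) (h2 : Iso B C) : Iso A C := by
  obtain ⟨H, hH, h0, h1⟩ := h1
  obtain ⟨G, hG, g0, g1⟩ := h2
  refine ⟨fun t => (H t).trans (G t), ?_, ?_, ?_⟩
  · exact hG.comp (continuous_fst.prodMk hH)
  · intro x
    simp [h0, g0]
  · rw [← g1, ← h1, ← Set.image_comp]
    rfl

theorem Iso.conj (e : X ≃ₜ Y) {A B : Set X} (h : Iso (e '' A) (e '' B)) : Iso A B := by
  obtain ⟨H, hH, h0, h1⟩ := h
  refine ⟨fun t => (e.trans (H t)).trans e.symm, ?_, ?_, ?_⟩
  · exact e.symm.continuous.comp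
      (hH.comp (continuous_fst.prodMk (e.continuous.comp continuous_snd)))
  · intro x
    simp [h0]
  · have : ((e.trans (H 1)).trans e.symm) '' A = e.symm '' (H 1 '' (e '' A)) := by
      rw [← Set.image_comp, ← Set.image_comp]
      rfl
    rw [this, h1, ← Set.image_comp]
    simp

/-- Build an isotopy from a jointly continuous family of homeomorphisms. -/
theorem iso_of_family (F : ℝ → X → X) (hF : Continuous (fun p : ℝ × X => F p.1 p.2))
    (hh : ∀ t ∈ Icc (0 : ℝ) 1, IsHomeomorph (F t)) (h0 : ∀ x, F 0 x = x) (A : Set X) :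
    Iso A (F 1 '' A) := by
  refine ⟨fun t => (hh t t.2).homeomorph, ?_, ?_, ?_⟩
  · exact hF.comp ((continuous_subtype_val.comp continuous_fst).prodMk continuous_snd)
  · intro x
    simpa using h0 x
  · rfl

theorem isHomeomorph_of_inverse (f g : X → X) (hf : Continuous f) (hg : Continuous g)
    (h1 : ∀ x, g (f x) = x) (h2 : ∀ x, f (g x) = x) : IsHomeomorph f :=
  isHomeomorph_iff_exists_inverse.2 ⟨hf, g, h1, h2, hg⟩

end General

/-- Vertical shear. -/
theorem iso_vshear (φ : ℂ → ℝ) (hφ : Continuous φ) (A : Set (ℝ × ℂ)) :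
    Iso A ((fun p : ℝ × ℂ => (p.1 + φ p.2, p.2)) '' A) := by
  have := iso_of_family (fun (t : ℝ) (p : ℝ × ℂ) => (p.1 + t * φ p.2, p.2)) (by fun_prop) ?_
    (by intro x; simp) A
  · simpa using this
  · intro t _
    refine isHomeomorph_of_inverse _ (fun p : ℝ × ℂ => (p.1 - t * φ p.2, p.2))
      (by fun_prop) (by fun_prop) ?_ ?_ <;> intro x <;> simp

/-- Horizontal shear. -/
theorem iso_hshear (ψ : ℝ → ℂ) (hψ : Continuous ψ) (A : Set (ℝ × ℂ)) :
    Iso A ((fun p : ℝ × ℂ => (p.1, p.2 + ψ p.1)) '' A) := by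
  have := iso_of_family (fun (t : ℝ) (p : ℝ × ℂ) => (p.1, p.2 + (t : ℂ) * ψ p.1)) (by fun_prop) ?_
    (by intro x; simp) A
  · simpa using this
  · intro t _
    refine isHomeomorph_of_inverse _ (fun p : ℝ × ℂ => (p.1, p.2 - (t : ℂ) * ψ p.1))
      (by fun_prop) (by fun_prop) ?_ ?_ <;> intro x <;> simp

/-- Level-wise rotation and scaling. -/
theorem iso_scale (c : ℝ → ℂ) (hc : Continuous c) (hc0 : ∀ x, c x ≠ 0) (A : Set (ℝ × ℂ)) :
    Iso A ((fun p : ℝ × ℂ => (p.1, c p.1 * p.2)) '' A) := by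
  have := iso_of_family (fun (t : ℝ) (p : ℝ × ℂ) =>
    (p.1, c (t * p.1) * Complex.exp (((t : ℂ) - 1) * Complex.log (c 0)) * p.2)) (by fun_prop) ?_
    ?_ A
  · simpa using this
  · intro t _
    have hne : ∀ x : ℝ, c (t * x) * Complex.exp (((t : ℂ) - 1) * Complex.log (c 0)) ≠ 0 :=
      fun x => mul_ne_zero (hc0 _) (Complex.exp_ne_zero _)
    refine isHomeomorph_of_inverse _ (fun p : ℝ × ℂ =>
      (p.1, (c (t * p.1) * Complex.exp (((t : ℂ) - 1) * Complex.log (c 0)))⁻¹ * p.2))
      (by fun_prop) ?_ ?_ ?_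
    · refine continuous_fst.prodMk (Continuous.mul (Continuous.inv₀ (by fun_prop) ?_)
        continuous_snd)
      intro p
      exact hne _
    · intro x
      ext
      · rfl
      · simp only
        rw [← mul_assoc, inv_mul_cancel₀ (hne _), one_mul]
    · intro x
      ext
      · rfl
      · simp only
        rw [← mul_assoc, mul_inv_cancel₀ (hne _), one_mul]
  · intro x
    ext
    · rfl
    · simp only [zero_mul, Complex.ofReal_zero, zero_sub, neg_mul, one_mul, Complex.exp_neg,
        Complex.exp_log (hc0 0)]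
      rw [mul_inv_cancel₀ (hc0 0), one_mul]

/-- The odd square root. -/
noncomputable def osqrt (r : ℝ) : ℝ := √r - √(-r)

theorem osqrt_strictMono : StrictMono osqrt := by
  intro x y hxy
  unfold osqrt
  have h1 : √x ≤ √y := Real.sqrt_le_sqrt hxy.le
  have h2 : √(-y) ≤ √(-x) := Real.sqrt_le_sqrt (by linarith)
  rcases le_or_gt 0 x with hx | hx
  · have : √x < √y := Real.sqrt_lt_sqrt hx hxy
    linarith
  · rcases le_or_gt y 0 with hy | hy
    · have : √(-y) < √(-x) := Real.sqrt_lt_sqrt (by linarith) (by linarith)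
      linarith
    · have : √x < √y := by
        rw [Real.sqrt_eq_zero'.2 hx.le]
        exact Real.sqrt_pos.2 hy
      linarith

theorem osqrt_continuous : Continuous osqrt := by
  unfold osqrt
  fun_prop

theorem osqrt_of_nonneg {r : ℝ} (h : 0 ≤ r) : osqrt r = √r := by
  unfold osqrt
  rw [Real.sqrt_eq_zero'.2 (by linarith : -r ≤ 0), sub_zero]

theorem osqrt_neg (r : ℝ) : osqrt (-r) = -osqrt r := by
  unfold osqrt
  simp

theorem isHomeomorph_mix (t : ℝ) (ht : t ∈ Icc (0 : ℝ) 1) :
    IsHomeomorph (fun r : ℝ => (1 - t) * r + t * osqrt r) := by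
  have hc : Continuous (fun r : ℝ => (1 - t) * r + t * osqrt r) := by
    have := osqrt_continuous
    fun_prop
  have hm : StrictMono (fun r : ℝ => (1 - t) * r + t * osqrt r) := by
    intro x y hxy
    have h1 := osqrt_strictMono hxy
    have h2 : 0 ≤ 1 - t := by linarith [ht.2]
    have h3 := ht.1
    simp only
    rcases h3.eq_or_lt with h | h
    · rw [← h]; linarith
    · nlinarith
  have hge : ∀ r : ℝ, 1 ≤ r → √r ≤ (1 - t) * r + t * osqrt r := by
    intro r hr
    rw [osqrt_of_nonneg (by linarith)]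
    have h1 : √r ≤ r := by
      rw [Real.sqrt_le_left (by linarith)]
      nlinarith
    have h2 : 0 ≤ 1 - t := by linarith [ht.2]
    nlinarith
  have hs : Function.Surjective (fun r : ℝ => (1 - t) * r + t * osqrt r) := by
    refine hc.surjective ?_ ?_
    · refine Filter.tendsto_atTop_mono' _ ?_ Real.tendsto_sqrt_atTop
      filter_upwards [Filter.eventually_ge_atTop 1] with r hr using hge r hr
    · have h1 : Filter.Tendsto (fun r : ℝ => -√(-r)) Filter.atBot Filter.atBot :=
        Filter.tendsto_neg_atTop_atBot.comp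
          (Real.tendsto_sqrt_atTop.comp Filter.tendsto_neg_atBot_atTop)
      refine Filter.tendsto_atBot_mono' _ ?_ h1
      filter_upwards [Filter.eventually_le_atBot (-1)] with r hr
      have := hge (-r) (by linarith)
      rw [osqrt_neg] at this
      linarith
  exact (hm.orderIsoOfSurjective _ hs).toHomeomorph.isHomeomorph

/-- Applying the odd square root to the real part. -/
theorem iso_osqrt (A : Set (ℝ × ℂ)) :
    Iso A ((fun p : ℝ × ℂ => (p.1, (⟨osqrt p.2.re, p.2.im⟩ : ℂ))) '' A) := by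
  have hmk : ∀ (f g : ℝ × (ℝ × ℂ) → ℝ), Continuous f → Continuous g →
      Continuous (fun p => (⟨f p, g p⟩ : ℂ)) := by
    intro f g hf hg
    have : (fun p => (⟨f p, g p⟩ : ℂ)) = fun p => (f p : ℂ) + (g p : ℂ) * Complex.I := by
      funext p
      exact Complex.mk_eq_add_mul_I _ _
    rw [this]
    fun_prop
  have := iso_of_family (fun (t : ℝ) (p : ℝ × ℂ) =>
    (p.1, (⟨(1 - t) * p.2.re + t * osqrt p.2.re, p.2.im⟩ : ℂ))) ?_ ?_ ?_ A
  · simpa using this
  · have := osqrt_continuous
    refine Continuous.prodMk (by fun_prop) (hmk _ _ (by fun_prop) (by fun_prop))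
  · intro t ht
    have h1 := (isHomeomorph_mix t ht).prodMap (IsHomeomorph.id (X := ℝ))
    have h2 : IsHomeomorph (fun z : ℂ => (⟨(1 - t) * z.re + t * osqrt z.re, z.im⟩ : ℂ)) := by
      have := Complex.equivRealProdCLM.symm.toHomeomorph.isHomeomorph.comp
        (h1.comp Complex.equivRealProdCLM.toHomeomorph.isHomeomorph)
      convert this using 1
      funext z
      apply Complex.ext <;> simp [Complex.equivRealProdCLM_symm_apply]
    exact (IsHomeomorph.id (X := ℝ)).prodMap h2
  · intro x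
    simp

/-- A small Lipschitz perturbation of the identity. -/
theorem iso_perturb {E : Type*} [NormedAddCommGroup E] [NormedSpace ℝ E] [CompleteSpace E]
    (V : E → E) (L : NNReal) (hV : LipschitzWith L V) (hL : L < 1) (A : Set E) :
    Iso A ((fun x => x + V x) '' A) := by
  have hc := hV.continuous
  have := iso_of_family (fun (t : ℝ) (x : E) => x + t • V x) (by fun_prop) ?_
    (by intro x; simp) A
  · simpa using this
  · intro t ht
    have happ : ApproximatesLinearOn (fun x => x + t • V x)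
        ((ContinuousLinearEquiv.refl ℝ E : E ≃L[ℝ] E) : E →L[ℝ] E) univ L := by
      intro x _ y _
      have h1 : x + t • V x - (y + t • V y) - (x - y) = t • (V x - V y) := by
        rw [smul_sub]; abel
      simp only [ContinuousLinearEquiv.coe_refl, ContinuousLinearMap.id_apply]
      rw [h1, norm_smul, Real.norm_of_nonneg ht.1]
      have h2 := hV.norm_sub_le x y
      have h3 := norm_nonneg (V x - V y)
      nlinarith [ht.2, ht.1]
    have hcond : Subsingleton E ∨
        L < ‖((ContinuousLinearEquiv.refl ℝ E : E ≃L[ℝ] E).symm : E →L[ℝ] E)‖₊⁻¹ := by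
      rcases subsingleton_or_nontrivial E with h | h
      · exact Or.inl h
      · right
        simpa using hL
    exact (happ.toHomeomorph _ hcond).isHomeomorph

end Pool.Agent.Lib.MP_fb72b7_co
end

-- part Pool.Agent.Lib.MP_fb72b7_co.Arcs
section

/-!
A closed curve made of two arcs with an injective projection is ambient isotopic to a circle.
-/

namespace Pool.Agent.Lib.MP_fb72b7_co

open Set

/-- The standard circle in `ℝ × ℂ`. -/
def stdCircle : Set (ℝ × ℂ) :=
  range (fun θ : ℝ => ((1 / 2 + 1 / 2 * Real.cos θ : ℝ), ((1 / 2 * Real.sin θ : ℝ) : ℂ)))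

theorem exists_ext_arc (P : ℝ → ℂ) (hP : Continuous P) (hinj : InjOn P (Icc 0 1))
    (f : ℝ → ℝ) (hf : Continuous f) :
    ∃ g : ℂ → ℝ, Continuous g ∧ ∀ h ∈ Icc (0 : ℝ) 1, g (P h) = f h := by
  have he : Topology.IsClosedEmbedding (fun h : Icc (0 : ℝ) 1 => P h) := by
    refine Continuous.isClosedEmbedding (hP.comp continuous_subtype_val) ?_
    intro a b hab
    exact Subtype.ext (hinj a.2 b.2 hab)
  obtain ⟨g, hg⟩ := ContinuousMap.exists_extension' he
    (⟨fun h : Icc (0 : ℝ) 1 => f h, hf.comp continuous_subtype_val⟩ : C(Icc (0 : ℝ) 1, ℝ))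
  exact ⟨g, g.continuous, fun h hh => congrFun hg ⟨h, hh⟩⟩

theorem exists_ext_two (P Q : ℝ → ℂ) (hP : Continuous P) (hQ : Continuous Q)
    (hPi : InjOn P (Icc 0 1)) (hQi : InjOn Q (Icc 0 1))
    (hPQ : ∀ s ∈ Icc (0 : ℝ) 1, ∀ t ∈ Icc (0 : ℝ) 1, P s = Q t →
      (s = 0 ∧ t = 0) ∨ (s = 1 ∧ t = 1))
    (f g : ℝ → ℝ) (hf : Continuous f) (hg : Continuous g) (h0 : f 0 = g 0) (h1 : f 1 = g 1) :
    ∃ φ : ℂ → ℝ, Continuous φ ∧ (∀ h ∈ Icc (0 : ℝ) 1, φ (P h) = f h) ∧
      ∀ h ∈ Icc (0 : ℝ) 1, φ (Q h) = g h := by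
  classical
  obtain ⟨a, ha, ha'⟩ := exists_ext_arc P hP hPi f hf
  obtain ⟨b, hb, hb'⟩ := exists_ext_arc Q hQ hQi g hg
  let F : ℂ → ℝ := fun z => if z ∈ Q '' Icc 0 1 then b z else a z
  have hFQ : ∀ h ∈ Icc (0 : ℝ) 1, F (Q h) = g h := by
    intro h hh
    simp only [F]
    rw [if_pos ⟨h, hh, rfl⟩, hb' h hh]
  have hFP : ∀ h ∈ Icc (0 : ℝ) 1, F (P h) = f h := by
    intro h hh
    simp only [F]
    split_ifs with hmem
    · obtain ⟨t, ht, hte⟩ := hmem
      rw [← hte, hb' t ht]
      rcases hPQ h hh t ht hte.symm with ⟨rfl, rfl⟩ | ⟨rfl, rfl⟩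
      · exact h0.symm
      · exact h1.symm
    · exact ha' h hh
  have cP : IsClosed (P '' Icc 0 1) := (isCompact_Icc.image hP).isClosed
  have cQ : IsClosed (Q '' Icc 0 1) := (isCompact_Icc.image hQ).isClosed
  have hFc : ContinuousOn F (P '' Icc 0 1 ∪ Q '' Icc 0 1) := by
    refine ContinuousOn.union_of_isClosed ?_ ?_ cP cQ
    · refine ha.continuousOn.congr ?_
      rintro _ ⟨h, hh, rfl⟩
      rw [hFP h hh, ha' h hh]
    · refine hb.continuousOn.congr ?_
      rintro _ ⟨h, hh, rfl⟩
      rw [hFQ h hh, hb' h hh]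
  obtain ⟨φ, hφ⟩ := ContinuousMap.exists_restrict_eq (cP.union cQ)
    (⟨_, hFc.domRestrict⟩ : C(↥(P '' Icc 0 1 ∪ Q '' Icc 0 1), ℝ))
  refine ⟨φ, φ.continuous, ?_, ?_⟩
  · intro h hh
    have := congrArg (fun k => k ⟨P h, Or.inl ⟨h, hh, rfl⟩⟩) hφ
    rw [← hFP h hh]
    exact this
  · intro h hh
    have := congrArg (fun k => k ⟨Q h, Or.inr ⟨h, hh, rfl⟩⟩) hφ
    rw [← hFQ h hh]
    exact this

theorem lens_eq_stdCircle :
    (fun h : ℝ => (h, ((√(h * (1 - h)) : ℝ) : ℂ))) '' Icc 0 1 ∪
      (fun h : ℝ => (h, ((-√(h * (1 - h)) : ℝ) : ℂ))) '' Icc 0 1 = stdCircle := by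
  ext ⟨x, z⟩
  constructor
  · have key : ∀ h ∈ Icc (0 : ℝ) 1, 1 / 2 + 1 / 2 * Real.cos (Real.arccos (2 * h - 1)) = h ∧
        1 / 2 * Real.sin (Real.arccos (2 * h - 1)) = √(h * (1 - h)) := by
      intro h hh
      constructor
      · rw [Real.cos_arccos (by linarith [hh.1]) (by linarith [hh.2])]
        ring
      · rw [Real.sin_arccos]
        have : 1 - (2 * h - 1) ^ 2 = 2 ^ 2 * (h * (1 - h)) := by ring
        rw [this, Real.sqrt_mul (by positivity), Real.sqrt_sq (by norm_num)]
        ring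
    rintro (⟨h, hh, he⟩ | ⟨h, hh, he⟩)
    · refine ⟨Real.arccos (2 * h - 1), ?_⟩
      rw [← he]
      simp only
      rw [(key h hh).1, (key h hh).2]
    · refine ⟨-Real.arccos (2 * h - 1), ?_⟩
      rw [← he]
      simp only
      rw [Real.cos_neg, Real.sin_neg, (key h hh).1, mul_neg, (key h hh).2]
  · rintro ⟨θ, he⟩
    have hc1 := Real.neg_one_le_cos θ
    have hc2 := Real.cos_le_one θ
    have hh : (1 / 2 + 1 / 2 * Real.cos θ) ∈ Icc (0 : ℝ) 1 := ⟨by linarith, by linarith⟩
    have hsq : (1 / 2 + 1 / 2 * Real.cos θ) * (1 - (1 / 2 + 1 / 2 * Real.cos θ)) =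
        (1 / 2 * Real.sin θ) ^ 2 := by
      have := Real.sin_sq_add_cos_sq θ
      nlinarith
    rcases le_total 0 (Real.sin θ) with hs | hs
    · left
      refine ⟨_, hh, ?_⟩
      rw [← he]
      simp only
      rw [hsq, Real.sqrt_sq (by linarith)]
    · right
      refine ⟨_, hh, ?_⟩
      rw [← he]
      simp only
      rw [hsq, Real.sqrt_sq_eq_abs, abs_of_nonpos (by linarith), neg_neg]

theorem iso_two_arcs (p q : ℝ → ℝ × ℂ) (hp : Continuous p) (hq : Continuous q)
    (h0 : p 0 = q 0) (h1 : p 1 = q 1)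
    (hPi : InjOn (fun h => (p h).2) (Icc 0 1)) (hQi : InjOn (fun h => (q h).2) (Icc 0 1))
    (hPQ : ∀ s ∈ Icc (0 : ℝ) 1, ∀ t ∈ Icc (0 : ℝ) 1, (p s).2 = (q t).2 →
      (s = 0 ∧ t = 0) ∨ (s = 1 ∧ t = 1))
    (κ : ℝ) (hκ0 : 0 < κ) (hκ1 : κ ≤ 1 / 2)
    (hlo : ∀ h ∈ Icc 0 κ, (p h).2 - (q h).2 = ((h / κ : ℝ) : ℂ) * ((p κ).2 - (q κ).2))
    (hhi : ∀ h ∈ Icc (1 - κ) 1, (p h).2 - (q h).2 =
      (((1 - h) / κ : ℝ) : ℂ) * ((p (1 - κ)).2 - (q (1 - κ)).2)) :
    Iso (p '' Icc 0 1 ∪ q '' Icc 0 1) stdCircle := by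
  obtain ⟨φ, hφ, hφp, hφq⟩ := exists_ext_two (fun h => (p h).2) (fun h => (q h).2)
    (by fun_prop) (by fun_prop) hPi hQi hPQ (fun h => h - (p h).1) (fun h => h - (q h).1)
    (by fun_prop) (by fun_prop) (by simp only [h0]) (by simp only [h1])
  set d : ℝ → ℂ := fun h => (p h).2 - (q h).2 with hd
  have hdc : Continuous d := by fun_prop
  let cl : ℝ → ℝ := fun x => max κ (min x (1 - κ))
  have hcl : Continuous cl := by fun_prop
  have hcl1 : ∀ x, κ ≤ cl x := fun x => le_max_left _ _
  have hcl2 : ∀ x, cl x ≤ 1 - κ := fun x => max_le (by linarith) (min_le_right _ _)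
  have hdne : ∀ x, d (cl x) ≠ 0 := by
    intro x hx
    have hm : cl x ∈ Icc (0 : ℝ) 1 := ⟨by linarith [hcl1 x], by linarith [hcl2 x]⟩
    rcases hPQ _ hm _ hm (sub_eq_zero.1 hx) with ⟨h, _⟩ | ⟨h, _⟩
    · linarith [hcl1 x]
    · linarith [hcl2 x]
  let c : ℝ → ℂ := fun x => ((2 * max x κ * max (1 - x) κ : ℝ) : ℂ) / d (cl x)
  have hcc : Continuous c := Continuous.div (by fun_prop) (hdc.comp hcl) hdne
  have hc0 : ∀ x, c x ≠ 0 := by
    intro x
    refine div_ne_zero ?_ (hdne x)
    have h1 : 0 < max x κ := lt_of_lt_of_le hκ0 (le_max_right _ _)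
    have h2 : 0 < max (1 - x) κ := lt_of_lt_of_le hκ0 (le_max_right _ _)
    exact Complex.ofReal_ne_zero.2 (by positivity)
  have hcd : ∀ h ∈ Icc (0 : ℝ) 1, c h * (d h / 2) = ((h * (1 - h) : ℝ) : ℂ) := by
    intro h hh
    have hκ : (κ : ℂ) ≠ 0 := Complex.ofReal_ne_zero.2 hκ0.ne'
    have hne := hdne h
    simp only [c]
    rcases le_total h κ with ha | ha
    · have e1 : cl h = κ := max_eq_left ((min_le_left _ _).trans ha)
      have e2 : max h κ = κ := max_eq_right ha
      have e3 : max (1 - h) κ = 1 - h := max_eq_left (by linarith)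
      have e4 : d h = ((h / κ : ℝ) : ℂ) * d κ := hlo h ⟨hh.1, ha⟩
      rw [e1] at hne
      rw [e1, e2, e3, e4]
      push_cast
      field_simp
    · rcases le_total h (1 - κ) with hb | hb
      · have e1 : cl h = h := by
          simp only [cl]
          rw [min_eq_left hb, max_eq_right ha]
        have e2 : max h κ = h := max_eq_left ha
        have e3 : max (1 - h) κ = 1 - h := max_eq_left (by linarith)
        rw [e1] at hne
        rw [e1, e2, e3]
        push_cast
        field_simp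
      · have e1 : cl h = 1 - κ := by
          simp only [cl]
          rw [min_eq_right hb, max_eq_right (by linarith)]
        have e2 : max h κ = h := max_eq_left ha
        have e3 : max (1 - h) κ = κ := max_eq_right (by linarith)
        have e4 : d h = (((1 - h) / κ : ℝ) : ℂ) * d (1 - κ) := hhi h ⟨hb, hh.2⟩
        rw [e1] at hne
        rw [e1, e2, e3, e4]
        push_cast
        field_simp
  have s1 := iso_vshear φ hφ (p '' Icc 0 1 ∪ q '' Icc 0 1)
  have e1 : (fun x : ℝ × ℂ => (x.1 + φ x.2, x.2)) '' (p '' Icc 0 1 ∪ q '' Icc 0 1) =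
      (fun h : ℝ => (h, (p h).2)) '' Icc 0 1 ∪ (fun h : ℝ => (h, (q h).2)) '' Icc 0 1 := by
    rw [image_union, image_image, image_image]
    congr 1
    · refine image_congr fun h hh => ?_
      rw [hφp h hh]
      simp
    · refine image_congr fun h hh => ?_
      rw [hφq h hh]
      simp
  rw [e1] at s1
  have s2 := iso_hshear (fun x => -((p x).2 + (q x).2) / 2) (by fun_prop)
    ((fun h : ℝ => (h, (p h).2)) '' Icc 0 1 ∪ (fun h : ℝ => (h, (q h).2)) '' Icc 0 1)
  have e2 : (fun x : ℝ × ℂ => (x.1, x.2 + -((p x.1).2 + (q x.1).2) / 2)) ''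
      ((fun h : ℝ => (h, (p h).2)) '' Icc 0 1 ∪ (fun h : ℝ => (h, (q h).2)) '' Icc 0 1) =
      (fun h : ℝ => (h, d h / 2)) '' Icc 0 1 ∪ (fun h : ℝ => (h, -(d h / 2))) '' Icc 0 1 := by
    rw [image_union, image_image, image_image]
    congr 1
    · refine image_congr fun h _ => ?_
      simp only [hd]
      congr 1
      ring
    · refine image_congr fun h _ => ?_
      simp only [hd]
      congr 1
      ring
  rw [e2] at s2
  have s3 := iso_scale c hcc hc0
    ((fun h : ℝ => (h, d h / 2)) '' Icc 0 1 ∪ (fun h : ℝ => (h, -(d h / 2))) '' Icc 0 1)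
  have e3 : (fun x : ℝ × ℂ => (x.1, c x.1 * x.2)) ''
      ((fun h : ℝ => (h, d h / 2)) '' Icc 0 1 ∪ (fun h : ℝ => (h, -(d h / 2))) '' Icc 0 1) =
      (fun h : ℝ => (h, ((h * (1 - h) : ℝ) : ℂ))) '' Icc 0 1 ∪
        (fun h : ℝ => (h, ((-(h * (1 - h)) : ℝ) : ℂ))) '' Icc 0 1 := by
    rw [image_union, image_image, image_image]
    congr 1
    · refine image_congr fun h hh => ?_
      simp only
      rw [hcd h hh]
    · refine image_congr fun h hh => ?_
      simp only
      rw [mul_neg, hcd h hh, Complex.ofReal_neg]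
  rw [e3] at s3
  have s4 := iso_osqrt ((fun h : ℝ => (h, ((h * (1 - h) : ℝ) : ℂ))) '' Icc 0 1 ∪
        (fun h : ℝ => (h, ((-(h * (1 - h)) : ℝ) : ℂ))) '' Icc 0 1)
  have e4 : (fun x : ℝ × ℂ => (x.1, (⟨osqrt x.2.re, x.2.im⟩ : ℂ))) ''
      ((fun h : ℝ => (h, ((h * (1 - h) : ℝ) : ℂ))) '' Icc 0 1 ∪
        (fun h : ℝ => (h, ((-(h * (1 - h)) : ℝ) : ℂ))) '' Icc 0 1) = stdCircle := by
    rw [← lens_eq_stdCircle, image_union, image_image, image_image]
    congr 1
    · refine image_congr fun h hh => ?_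
      have : 0 ≤ h * (1 - h) := mul_nonneg hh.1 (by linarith [hh.2])
      simp only [Complex.ofReal_re, Complex.ofReal_im]
      rw [osqrt_of_nonneg this]
      rfl
    · refine image_congr fun h hh => ?_
      have : 0 ≤ h * (1 - h) := mul_nonneg hh.1 (by linarith [hh.2])
      simp only [Complex.ofReal_re, Complex.ofReal_im]
      rw [osqrt_neg, osqrt_of_nonneg this]
      rfl
  rw [e4] at s4
  exact ((s1.trans s2).trans s3).trans s4

end Pool.Agent.Lib.MP_fb72b7_co
end

-- part Pool.Agent.Lib.MP_fb72b7_co.Poly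
section

/-!
A closed polygon in `ℝ × ℂ` whose projection to `ℂ` is simple is ambient isotopic to a circle.
-/

namespace Pool.Agent.Lib.MP_fb72b7_co

open Set

/-- The piecewise linear path through `w 0, …, w N`. -/
noncomputable def plPath (w : ℕ → ℝ × ℂ) (N : ℕ) (τ : ℝ) : ℝ × ℂ :=
  w 0 + ∑ j ∈ Finset.range N, (max 0 (min (τ - j) 1)) • (w (j + 1) - w j)

theorem plPath_continuous (w : ℕ → ℝ × ℂ) (N : ℕ) : Continuous (plPath w N) := by
  unfold plPath
  fun_prop

theorem plPath_of_ge (w : ℕ → ℝ × ℂ) (N : ℕ) (τ : ℝ) (h : (N : ℝ) ≤ τ) : plPath w N τ = w N := by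
  unfold plPath
  have : ∀ j ∈ Finset.range N, (max 0 (min (τ - j) 1)) • (w (j + 1) - w j) = w (j + 1) - w j := by
    intro j hj
    have hj' : (j : ℝ) + 1 ≤ N := by exact_mod_cast Finset.mem_range.1 hj
    rw [min_eq_right (by linarith), max_eq_right zero_le_one, one_smul]
  rw [Finset.sum_congr rfl this, Finset.sum_range_sub]
  abel

theorem plPath_eq (w : ℕ → ℝ × ℂ) (N j : ℕ) (hj : j < N) (θ : ℝ) (h0 : 0 ≤ θ) (h1 : θ ≤ 1) :
    plPath w N (j + θ) = w j + θ • (w (j + 1) - w j) := by
  induction N with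
  | zero => omega
  | succ N ih =>
    have hstep : plPath w (N + 1) (j + θ) =
        plPath w N (j + θ) + (max 0 (min ((j + θ : ℝ) - N) 1)) • (w (N + 1) - w N) := by
      unfold plPath
      rw [Finset.sum_range_succ, add_assoc]
    rw [hstep]
    rcases Nat.lt_succ_iff_lt_or_eq.1 hj with h | h
    · have hj' : (j : ℝ) + 1 ≤ N := by exact_mod_cast h
      rw [ih h, min_eq_left (by linarith), max_eq_left (by linarith), zero_smul, add_zero]
    · subst h
      rw [plPath_of_ge w j _ (by linarith), add_sub_cancel_left, min_eq_left h1, max_eq_right h0]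

theorem plPath_floor (w : ℕ → ℝ × ℂ) (N : ℕ) (τ : ℝ) (h0 : 0 ≤ τ) (h1 : τ ≤ N) :
    ∃ (j : ℕ) (θ : ℝ), j ≤ N ∧ 0 ≤ θ ∧ θ < 1 ∧ τ = j + θ ∧
      plPath w N τ = w j + θ • (w (j + 1) - w j) := by
  have hf := Nat.floor_le h0
  have hf2 := Nat.lt_floor_add_one τ
  have hle : ⌊τ⌋₊ ≤ N := Nat.floor_le_of_le h1
  refine ⟨⌊τ⌋₊, τ - ⌊τ⌋₊, hle, by linarith, by linarith, by ring, ?_⟩
  rcases hle.lt_or_eq with h | h
  · have := plPath_eq w N _ h (τ - ⌊τ⌋₊) (by linarith) (by linarith)
    rwa [add_sub_cancel] at this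
  · have hτ : τ = N := by
      rw [h] at hf
      linarith
    rw [plPath_of_ge w N τ hτ.ge, h, hτ, sub_self, zero_smul, add_zero]

theorem iso_simple_polygon (n : ℕ) (hn : 3 ≤ n) (W : ZMod n → ℝ × ℂ)
    (hW : ∀ (j l : ZMod n) (θ θ' : ℝ), 0 ≤ θ → θ < 1 → 0 ≤ θ' → θ' < 1 →
      (W j + θ • (W (j + 1) - W j)).2 = (W l + θ' • (W (l + 1) - W l)).2 → j = l ∧ θ = θ') :
    Iso (⋃ j, segment ℝ (W j) (W (j + 1))) stdCircle := by
  obtain ⟨N, rfl⟩ : ∃ N, n = N + 1 := ⟨n - 1, by omega⟩
  have hN : 2 ≤ N := by omega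
  have hNr : (2 : ℝ) ≤ N := by exact_mod_cast hN
  have hNpos : (0 : ℝ) < N := by linarith
  let w : ℕ → ℝ × ℂ := fun j => W (j : ZMod (N + 1))
  have hw1 : ∀ j : ℕ, w (j + 1) = W ((j : ZMod (N + 1)) + 1) := by
    intro j
    simp [w]
  have hcast : ∀ j l : ℕ, j ≤ N → l ≤ N → (j : ZMod (N + 1)) = (l : ZMod (N + 1)) → j = l := by
    intro j l hj hl h
    have := congrArg ZMod.val h
    rwa [ZMod.val_natCast_of_lt (by omega), ZMod.val_natCast_of_lt (by omega)] at this
  have hlast : ((N : ZMod (N + 1)) + 1) = 0 := by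
    simp
  have hwN : w (N + 1) = w 0 := by
    rw [hw1, hlast]
    simp [w]
  have hw : ∀ (j l : ℕ) (θ θ' : ℝ), j ≤ N → l ≤ N → 0 ≤ θ → θ < 1 → 0 ≤ θ' → θ' < 1 →
      (w j + θ • (w (j + 1) - w j)).2 = (w l + θ' • (w (l + 1) - w l)).2 → j = l ∧ θ = θ' := by
    intro j l θ θ' hj hl a b c d h
    rw [hw1, hw1] at h
    obtain ⟨h1, h2⟩ := hW _ _ θ θ' a b c d h
    exact ⟨hcast j l hj hl h1, h2⟩
  let p : ℝ → ℝ × ℂ := fun h => plPath w N (N * h)
  let q : ℝ → ℝ × ℂ := fun h => w 0 + h • (w N - w 0)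
  have hq' : ∀ h : ℝ, q h = w N + (1 - h) • (w (N + 1) - w N) := by
    intro h
    rw [hwN]
    simp only [q]
    module
  have hq0 : q 0 = w 0 + (0 : ℝ) • (w (0 + 1) - w 0) := by simp [q]
  have hpf : ∀ h ∈ Icc (0 : ℝ) 1, ∃ (j : ℕ) (θ : ℝ), j ≤ N ∧ 0 ≤ θ ∧ θ < 1 ∧ N * h = j + θ ∧
      p h = w j + θ • (w (j + 1) - w j) := by
    intro h hh
    exact plPath_floor w N _ (mul_nonneg hNpos.le hh.1) (by nlinarith [hh.2])
  have key := iso_two_arcs p q ((plPath_continuous w N).comp (by fun_prop)) (by fun_prop)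
    ?_ ?_ ?_ ?_ ?_ (1 / N) (by positivity)
    (by rw [div_le_div_iff₀ hNpos (by norm_num)]; linarith) ?_ ?_
  · convert key using 1
    ext x
    simp only [mem_iUnion, mem_union, mem_image]
    constructor
    · rintro ⟨j, hx⟩
      rw [segment_eq_image'] at hx
      obtain ⟨θ, hθ, rfl⟩ := hx
      have hjv : j = ((j.val : ℕ) : ZMod (N + 1)) := (ZMod.natCast_zmod_val j).symm
      have hlt : j.val < N + 1 := ZMod.val_lt j
      have e1 : W j = w j.val := by simp only [w]; rw [← hjv]
      have e2 : W (j + 1) = w (j.val + 1) := by rw [hw1, ← hjv]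
      rw [e1, e2]
      rcases Nat.lt_succ_iff_lt_or_eq.1 hlt with h | h
      · left
        have hj' : (j.val : ℝ) + 1 ≤ N := by exact_mod_cast h
        refine ⟨(j.val + θ) / N, ⟨div_nonneg (by linarith [hθ.1, (Nat.cast_nonneg j.val : (0 : ℝ) ≤ j.val)]) hNpos.le, ?_⟩, ?_⟩
        · rw [div_le_one hNpos]
          linarith [hθ.2]
        · simp only [p]
          rw [mul_div_cancel₀ _ hNpos.ne', plPath_eq w N _ h θ hθ.1 hθ.2]
      · right
        refine ⟨1 - θ, ⟨by linarith [hθ.2], by linarith [hθ.1]⟩, ?_⟩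
        rw [hq', h, sub_sub_cancel]
    · rintro (⟨h, hh, rfl⟩ | ⟨h, hh, rfl⟩)
      · obtain ⟨j, θ, -, a, b, -, e⟩ := hpf h hh
        refine ⟨(j : ZMod (N + 1)), ?_⟩
        rw [segment_eq_image', e, hw1]
        exact ⟨θ, ⟨a, b.le⟩, rfl⟩
      · refine ⟨(N : ZMod (N + 1)), ?_⟩
        rw [segment_eq_image', hq', hw1]
        exact ⟨1 - h, ⟨by linarith [hh.2], by linarith [hh.1]⟩, rfl⟩
  · simp only [p, q]
    have := plPath_eq w N 0 (by omega) 0 le_rfl zero_le_one
    simpa using this
  · simp only [p, q]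
    rw [plPath_of_ge w N _ (by linarith)]
    simp
  · intro s hs t ht hst
    obtain ⟨j, θ, a1, a2, a3, a4, a5⟩ := hpf s hs
    obtain ⟨l, θ', b1, b2, b3, b4, b5⟩ := hpf t ht
    simp only at hst
    rw [a5, b5] at hst
    obtain ⟨rfl, rfl⟩ := hw j l θ θ' a1 b1 a2 a3 b2 b3 hst
    exact mul_left_cancel₀ hNpos.ne' (a4.trans b4.symm)
  · intro s hs t ht hst
    have hne : (w N).2 - (w 0).2 ≠ 0 := by
      intro h
      have := hw N 0 0 0 le_rfl (by omega) le_rfl zero_lt_one le_rfl zero_lt_one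
        (by simpa using sub_eq_zero.1 h)
      omega
    simp only [q, Prod.snd_add, Prod.smul_snd, Prod.snd_sub, add_right_inj] at hst
    exact smul_left_injective ℝ hne hst
  · intro s hs t ht hst
    obtain ⟨j, θ, a1, a2, a3, a4, a5⟩ := hpf s hs
    rw [a5] at hst
    rcases ht.1.eq_or_lt with h | h
    · left
      rw [← h, hq0] at hst
      obtain ⟨rfl, rfl⟩ := hw j 0 θ 0 a1 (by omega) a2 a3 le_rfl zero_lt_one hst
      refine ⟨?_, h.symm⟩
      simp only [Nat.cast_zero, add_zero, mul_eq_zero] at a4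
      exact a4.resolve_left hNpos.ne'
    · right
      rw [hq'] at hst
      obtain ⟨rfl, rfl⟩ := hw j N θ (1 - t) a1 le_rfl a2 a3 (by linarith [ht.2]) (by linarith) hst
      have h1 : (j : ℝ) * s ≤ j := by nlinarith [hs.2]
      have h2 : t = 1 := by linarith
      refine ⟨?_, h2⟩
      rw [h2, sub_self, add_zero] at a4
      exact mul_left_cancel₀ hNpos.ne' (by rw [a4, mul_one])
  · have hp' : ∀ h ∈ Icc (0 : ℝ) (1 / N), p h = w 0 + (N * h) • (w 1 - w 0) := by
      intro h hh
      have h2 : (N : ℝ) * h ≤ 1 := by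
        have := hh.2
        rw [le_div_iff₀ hNpos] at this
        linarith
      have := plPath_eq w N 0 (by omega) (N * h) (mul_nonneg hNpos.le hh.1) h2
      simpa using this
    intro h hh
    rw [hp' h hh, hp' (1 / N) ⟨by positivity, le_rfl⟩]
    simp only [q, Prod.snd_add, Prod.smul_snd, Prod.snd_sub, Complex.real_smul]
    have : (N : ℂ) ≠ 0 := by exact_mod_cast hNpos.ne'
    push_cast
    field_simp
    ring
  · have hp' : ∀ h ∈ Icc (1 - 1 / (N : ℝ)) 1, p h = w N + (N * (1 - h)) • (w (N - 1) - w N) := by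
      intro h hh
      have h2 : (N : ℝ) * (1 - h) ≤ 1 := by
        have : 1 - h ≤ 1 / N := by linarith [hh.1]
        rw [le_div_iff₀ hNpos] at this
        linarith
      have h3 : 0 ≤ (N : ℝ) * (1 - h) := mul_nonneg hNpos.le (by linarith [hh.2])
      have := plPath_eq w N (N - 1) (by omega) (1 - N * (1 - h)) (by linarith) (by linarith)
      rw [Nat.sub_add_cancel (by omega : 1 ≤ N), Nat.cast_sub (by omega : 1 ≤ N)] at this
      simp only [p]
      have e : (N : ℝ) * h = (N : ℝ) - (1 : ℕ) + (1 - N * (1 - h)) := by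
        push_cast
        ring
      rw [e, this]
      module
    intro h hh
    have h1N : (0 : ℝ) ≤ 1 / N := by positivity
    rw [hp' h hh, hp' (1 - 1 / N) ⟨le_rfl, by linarith⟩]
    simp only [q, Prod.snd_add, Prod.smul_snd, Prod.snd_sub, Complex.real_smul]
    have : (N : ℂ) ≠ 0 := by exact_mod_cast hNpos.ne'
    push_cast
    field_simp
    ring

end Pool.Agent.Lib.MP_fb72b7_co
end

-- part Pool.Agent.Lib.MP_fb72b7_co.Lattice
section

/-!
Polygons in three-space with a simple projection are unknotted; perturbing lattice polygons.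
-/

namespace Pool.Agent.Lib.MP_fb72b7_co

open Set

/-- Coordinates adapted to the axis `i`. -/
noncomputable def coordL (i : Fin 3) : Space ≃ₗ[ℝ] ℝ × ℂ where
  toFun X := (X i, ⟨X (i + 1), X (i + 2)⟩)
  invFun p := WithLp.toLp 2 (fun m => if m = i then p.1 else if m = i + 1 then p.2.re else p.2.im)
  map_add' X Y := by
    refine Prod.ext (by simp) (Complex.ext (by simp) (by simp))
  map_smul' c X := by
    refine Prod.ext (by simp) (Complex.ext (by simp) (by simp))
  left_inv X := by
    ext m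
    fin_cases i <;> fin_cases m <;> simp
  right_inv p := by
    refine Prod.ext ?_ (Complex.ext ?_ ?_) <;> fin_cases i <;> simp

theorem unknotted_of_simple (i : Fin 3) (n : ℕ) (hn : 3 ≤ n) (W : ZMod n → Space)
    (hW : ∀ (j l : ZMod n) (θ θ' : ℝ), 0 ≤ θ → θ < 1 → 0 ≤ θ' → θ' < 1 →
      (∀ m, m ≠ i → W j m + θ * (W (j + 1) m - W j m) = W l m + θ' * (W (l + 1) m - W l m)) →
      j = l ∧ θ = θ') :
    Unknotted (⋃ j, segment ℝ (W j) (W (j + 1))) := by
  let e : Space ≃L[ℝ] ℝ × ℂ := (coordL i).toContinuousLinearEquiv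
  have he : ∀ X : Space, e X = (X i, ⟨X (i + 1), X (i + 2)⟩) := fun X => rfl
  have key := iso_simple_polygon n hn (fun j => e (W j)) ?_
  · refine ⟨range (fun θ : ℝ => (1 / 2 : ℝ) • EuclideanSpace.single i (1 : ℝ) +
      (1 / 2 * Real.cos θ) • EuclideanSpace.single i (1 : ℝ) +
      (1 / 2 * Real.sin θ) • EuclideanSpace.single (i + 1) (1 : ℝ)),
      ⟨_, _, _, 1 / 2, by norm_num, ?_, ?_, ?_, rfl⟩, ?_⟩
    · simp
    · simp
    · rw [EuclideanSpace.inner_single_left]
      fin_cases i <;> simp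
    · refine Iso.conj e.toHomeomorph ?_
      convert key using 1
      · rw [image_iUnion]
        refine iUnion_congr fun j => ?_
        exact image_segment ℝ (e : Space →ₗ[ℝ] ℝ × ℂ).toAffineMap _ _
      · rw [← range_comp]
        unfold stdCircle
        congr 1
        funext θ
        simp only [Function.comp, ContinuousLinearEquiv.coe_toHomeomorph, he]
        refine Prod.ext ?_ (Complex.ext ?_ ?_)
        · fin_cases i <;> simp
        · simp only [Complex.ofReal_re]
          fin_cases i <;> simp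
        · simp only [Complex.ofReal_im]
          fin_cases i <;> simp
  · intro j l θ θ' a b c d h
    refine hW j l θ θ' a b c d ?_
    intro m hm
    simp only [he, Prod.snd_add, Prod.smul_snd, Prod.snd_sub] at h
    have h1 := congrArg Complex.re h
    have h2 := congrArg Complex.im h
    simp only [Complex.add_re, Complex.add_im, Complex.smul_re, Complex.smul_im, Complex.sub_re,
      Complex.sub_im, smul_eq_mul] at h1 h2
    have : m = i + 1 ∨ m = i + 2 := by
      revert hm
      fin_cases i <;> fin_cases m <;> simp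
    rcases this with rfl | rfl
    · exact h1
    · exact h2

/-- A unit step in the lattice. -/
def Step (u v : Pt) : Prop := ∃ (m : Fin 3) (s : ℤ), (s = 1 ∨ s = -1) ∧ v = u + Pi.single m s

theorem adj_iff_step (u v : Pt) : Adj u v ↔ Step u v := by
  unfold Adj
  rw [EuclideanSpace.dist_eq, Real.sqrt_eq_one]
  simp only [toSpace, Real.dist_eq, sq_abs, Fin.sum_univ_three]
  constructor
  · intro h
    have h' : (u 0 - v 0) ^ 2 + (u 1 - v 1) ^ 2 + (u 2 - v 2) ^ 2 = 1 := by exact_mod_cast h
    obtain ⟨a, ha⟩ : ∃ a, v 0 = u 0 + a := ⟨v 0 - u 0, by ring⟩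
    obtain ⟨b, hb⟩ : ∃ b, v 1 = u 1 + b := ⟨v 1 - u 1, by ring⟩
    obtain ⟨c, hc⟩ : ∃ c, v 2 = u 2 + c := ⟨v 2 - u 2, by ring⟩
    rw [ha, hb, hc] at h'
    have h2 : a ^ 2 + b ^ 2 + c ^ 2 = 1 := by linarith
    have ha1 : -1 ≤ a ∧ a ≤ 1 := by constructor <;> nlinarith
    have hb1 : -1 ≤ b ∧ b ≤ 1 := by constructor <;> nlinarith
    have hc1 : -1 ≤ c ∧ c ≤ 1 := by constructor <;> nlinarith
    have fin : ∀ (m : Fin 3) (s : ℤ), (s = 1 ∨ s = -1) → a = (Pi.single m s : Pt) 0 →
        b = (Pi.single m s : Pt) 1 → c = (Pi.single m s : Pt) 2 → Step u v := by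
      intro m s hs h0 h1 h2
      refine ⟨m, s, hs, ?_⟩
      funext k
      fin_cases k
      · simpa [h0] using ha
      · simpa [h1] using hb
      · simpa [h2] using hc
    obtain ⟨a1, a2⟩ := ha1
    obtain ⟨b1, b2⟩ := hb1
    obtain ⟨c1, c2⟩ := hc1
    interval_cases a <;> interval_cases b <;> interval_cases c <;> first
      | (exfalso; omega)
      | (apply fin 0 1 <;> decide)
      | (apply fin 0 (-1) <;> decide)
      | (apply fin 1 1 <;> decide)
      | (apply fin 1 (-1) <;> decide)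
      | (apply fin 2 1 <;> decide)
      | (apply fin 2 (-1) <;> decide)
  · rintro ⟨m, s, hs, rfl⟩
    rcases hs with rfl | rfl <;> fin_cases m <;> simp

theorem Step.symm {u v : Pt} (h : Step u v) : Step v u := by
  obtain ⟨m, s, hs, rfl⟩ := h
  refine ⟨m, -s, by omega, ?_⟩
  rw [Pi.single_neg]
  abel

theorem Step.ne {u v : Pt} (h : Step u v) : u ≠ v := by
  obtain ⟨m, s, hs, rfl⟩ := h
  intro h
  have := congrFun h m
  simp at this
  omega

/-- The tent function centred at a lattice point. -/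
noncomputable def tent (v : Pt) (X : Space) : ℝ := max 0 (1 - ∑ m, |X m - v m|)

theorem tent_lipschitz (v : Pt) : LipschitzWith 3 (tent v) := by
  have h1 : LipschitzWith 3 (fun X : Space => 1 - ∑ m, |X m - (v m : ℝ)|) := by
    refine LipschitzWith.of_dist_le_mul fun X Y => ?_
    have hm : ∀ m, |X m - Y m| ≤ dist X Y := fun m => by
      rw [← Real.dist_eq]
      exact PiLp.dist_apply_le X Y m
    have ha : ∀ m, abs (|X m - (v m : ℝ)| - |Y m - (v m : ℝ)|) ≤ dist X Y := fun m => by
      refine (abs_abs_sub_abs_le_abs_sub _ _).trans ?_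
      rw [sub_sub_sub_cancel_right]
      exact hm m
    have a0 := abs_le.1 (ha 0)
    have a1 := abs_le.1 (ha 1)
    have a2 := abs_le.1 (ha 2)
    rw [Real.dist_eq, Fin.sum_univ_three, Fin.sum_univ_three, abs_le]
    push_cast
    constructor <;> linarith [a0.1, a0.2, a1.1, a1.2, a2.1, a2.2]
  exact h1.const_max 0

theorem tent_edge {u u' : Pt} (h : Step u u') (θ : ℝ) (h0 : 0 ≤ θ) (h1 : θ ≤ 1) (v : Pt) :
    tent v (toSpace u + θ • (toSpace u' - toSpace u)) =
      (if v = u then 1 - θ else 0) + (if v = u' then θ else 0) := by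
  have hne := h.ne
  obtain ⟨m, s, hs, rfl⟩ := h
  have hX : ∀ k, (toSpace u + θ • (toSpace (u + Pi.single m s) - toSpace u)) k =
      u k + θ * ((Pi.single m s : Pt) k : ℝ) := by
    intro k
    simp [toSpace]
  have hsum : ∑ k, |(toSpace u + θ • (toSpace (u + Pi.single m s) - toSpace u)) k - v k| =
      |(u m - v m : ℝ) + θ * s| + ∑ k ∈ Finset.univ.erase m, |(u k - v k : ℝ)| := by
    rw [← Finset.add_sum_erase _ _ (Finset.mem_univ m), hX]
    congr 1
    · simp only [Pi.single_eq_same]
      ring_nf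
    · refine Finset.sum_congr rfl fun k hk => ?_
      rw [hX, Pi.single_eq_of_ne (Finset.ne_of_mem_erase hk)]
      simp
  unfold tent
  rw [hsum]
  by_cases hv : v = u
  · subst hv
    rw [if_pos rfl, if_neg hne]
    have : |θ * (s : ℝ)| = θ := by
      rcases hs with rfl | rfl <;> simp [abs_of_nonneg h0]
    simp only [sub_self, zero_add, abs_zero, Finset.sum_const_zero, add_zero, this]
    exact max_eq_right (by linarith)
  · by_cases hv' : v = u + Pi.single m s
    · subst hv'
      rw [if_neg hv, if_pos rfl]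
      have e1 : ∑ k ∈ Finset.univ.erase m, |((u k : ℝ) - ((u + Pi.single m s : Pt) k : ℝ))| = 0 := by
        refine Finset.sum_eq_zero fun k hk => ?_
        simp [Pi.single_eq_of_ne (Finset.ne_of_mem_erase hk)]
      have e2 : |(u m : ℝ) - ((u + Pi.single m s : Pt) m : ℝ) + θ * s| = 1 - θ := by
        rcases hs with rfl | rfl
        · simp only [Pi.add_apply, Pi.single_eq_same]
          push_cast
          rw [abs_of_nonpos (by linarith)]
          ring
        · simp only [Pi.add_apply, Pi.single_eq_same]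
          push_cast
          rw [abs_of_nonneg (by linarith)]
          ring
      rw [e1, e2]
      simp [h0]
    · rw [if_neg hv, if_neg hv', add_zero]
      refine max_eq_left ?_
      have hnn : 0 ≤ ∑ k ∈ Finset.univ.erase m, |(u k - v k : ℝ)| :=
        Finset.sum_nonneg fun k _ => abs_nonneg _
      by_cases hk : ∃ k, k ≠ m ∧ u k ≠ v k
      · obtain ⟨k, hk1, hk2⟩ := hk
        have h2 : |(u k - v k : ℝ)| ≤ ∑ k ∈ Finset.univ.erase m, |(u k - v k : ℝ)| :=
          Finset.single_le_sum (f := fun k => |(u k - v k : ℝ)|) (fun k _ => abs_nonneg _)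
            (Finset.mem_erase.2 ⟨hk1, Finset.mem_univ _⟩)
        have h3 : (1 : ℝ) ≤ |(u k - v k : ℝ)| := by
          have : (1 : ℤ) ≤ |u k - v k| := Int.one_le_abs (sub_ne_zero.2 hk2)
          exact_mod_cast this
        linarith [abs_nonneg ((u m - v m : ℝ) + θ * s)]
      · push Not at hk
        have hm1 : u m ≠ v m := by
          intro hm
          apply hv
          funext k
          by_cases hkm : k = m
          · rw [hkm, hm]
          · exact (hk k hkm).symm
        have hm2 : u m + s ≠ v m := by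
          intro hm
          apply hv'
          funext k
          by_cases hkm : k = m
          · rw [hkm, ← hm]
            simp
          · simp [Pi.single_eq_of_ne hkm, hk k hkm]
        have h4 : (1 : ℝ) ≤ |(u m - v m : ℝ) + θ * s| := by
          rcases hs with rfl | rfl
          · rcases lt_or_gt_of_ne hm1 with h | h
            · have : u m + 2 ≤ v m := by omega
              have : (u m : ℝ) + 2 ≤ v m := by exact_mod_cast this
              rw [le_abs]
              right
              push_cast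
              linarith
            · have : v m + 1 ≤ u m := by omega
              have : (v m : ℝ) + 1 ≤ u m := by exact_mod_cast this
              rw [le_abs]
              left
              push_cast
              linarith
          · rcases lt_or_gt_of_ne hm1 with h | h
            · have : u m + 1 ≤ v m := by omega
              have : (u m : ℝ) + 1 ≤ v m := by exact_mod_cast this
              rw [le_abs]
              right
              push_cast
              linarith
            · have : v m + 2 ≤ u m := by omega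
              have : (v m : ℝ) + 2 ≤ u m := by exact_mod_cast this
              rw [le_abs]
              left
              push_cast
              linarith
        linarith

theorem exists_lipschitz_sum {ι : Type*} (s : Finset ι) (f : ι → Space → ℝ) (D : ι → Space)
    (hf : ∀ j, LipschitzWith 3 (f j)) :
    ∃ L : NNReal, LipschitzWith L (fun X => ∑ j ∈ s, f j X • D j) := by
  classical
  induction s using Finset.induction_on with
  | empty => exact ⟨0, by simp⟩
  | insert a s ha ih =>
    obtain ⟨L, hL⟩ := ih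
    have h1 : LipschitzWith (3 * ‖D a‖₊) (fun X => f a X • D a) := by
      refine LipschitzWith.of_dist_le_mul fun X Y => ?_
      rw [dist_eq_norm, ← sub_smul, norm_smul, ← dist_eq_norm]
      have := (hf a).dist_le_mul X Y
      push_cast at this ⊢
      nlinarith [norm_nonneg (D a), dist_nonneg (x := X) (y := Y)]
    refine ⟨3 * ‖D a‖₊ + L, ?_⟩
    simp only [Finset.sum_insert ha]
    exact h1.add hL

/-- Moving the vertices of a lattice polygon slightly does not change its isotopy class. -/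
theorem iso_move_vertices (n : ℕ) [NeZero n] (w : ZMod n → Pt) (hinj : Function.Injective w)
    (hstep : ∀ j, Step (w j) (w (j + 1))) (D : ZMod n → Space) :
    ∃ ε : ℝ, 0 < ε ∧ ε ≤ 1 / 3 ∧
      Iso (⋃ j, segment ℝ (toSpace (w j)) (toSpace (w (j + 1))))
        (⋃ j, segment ℝ (toSpace (w j) + ε • D j) (toSpace (w (j + 1)) + ε • D (j + 1))) := by
  obtain ⟨L, hL⟩ := exists_lipschitz_sum Finset.univ (fun j => tent (w j)) D
    (fun j => tent_lipschitz _)
  let ε : NNReal := (L + 3)⁻¹
  have hε0 : 0 < ε := by positivity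
  have hεL : ε * L < 1 := by
    simp only [ε]
    rw [inv_mul_lt_iff₀ (by positivity)]
    simp
  have hε3 : (ε : ℝ) ≤ 1 / 3 := by
    simp only [ε]
    push_cast
    rw [one_div]
    exact inv_anti₀ (by norm_num) (by linarith [L.2])
  refine ⟨ε, hε0, hε3, ?_⟩
  have hV : LipschitzWith (ε * L) (fun X => (ε : ℝ) • ∑ j, tent (w j) X • D j) := by
    refine LipschitzWith.of_dist_le_mul fun X Y => ?_
    rw [dist_smul₀]
    have := hL.dist_le_mul X Y
    push_cast
    rw [Real.norm_of_nonneg (NNReal.coe_nonneg ε), mul_assoc]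
    exact mul_le_mul_of_nonneg_left this ε.2
  have key := iso_perturb _ _ hV hεL (⋃ j, segment ℝ (toSpace (w j)) (toSpace (w (j + 1))))
  suffices hs : (fun X => X + (ε : ℝ) • ∑ j, tent (w j) X • D j) ''
      (⋃ j, segment ℝ (toSpace (w j)) (toSpace (w (j + 1)))) =
      ⋃ j, segment ℝ (toSpace (w j) + (ε : ℝ) • D j)
        (toSpace (w (j + 1)) + (ε : ℝ) • D (j + 1)) by
    rw [← hs]
    exact key
  rw [image_iUnion]
  refine iUnion_congr fun j => ?_
  rw [segment_eq_image', segment_eq_image', image_image]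
  refine image_congr fun θ hθ => ?_
  have : ∑ l, tent (w l) (toSpace (w j) + θ • (toSpace (w (j + 1)) - toSpace (w j))) • D l =
      (1 - θ) • D j + θ • D (j + 1) := by
    simp only [tent_edge (hstep j) θ hθ.1 hθ.2, hinj.eq_iff, add_smul, ite_smul, zero_smul,
      Finset.sum_add_distrib, Finset.sum_ite_eq', Finset.mem_univ, if_true]
  rw [this]
  module

end Pool.Agent.Lib.MP_fb72b7_co
end

-- part Pool.Agent.Lib.MP_fb72b7_co.Cycle
section

/-!
A lattice cycle that visits every column (line parallel to a fixed axis) in one piece is unknotted.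
-/

namespace Pool.Agent.Lib.MP_fb72b7_co

open Set

theorem int_eq_zero_of_abs_lt {k : ℤ} (h1 : (-1 : ℝ) < k) (h2 : (k : ℝ) < 1) : k = 0 := by
  have a : (-1 : ℤ) < k := by exact_mod_cast h1
  have b : k < (1 : ℤ) := by exact_mod_cast h2
  omega

theorem grid_lemma {P P' Q Q' : Pt} (hP : Step P P') (hQ : Step Q Q') (θ θ' : ℝ)
    (a0 : 0 ≤ θ) (a1 : θ < 1) (b0 : 0 ≤ θ') (b1 : θ' < 1)
    (h : ∀ m, (P m : ℝ) + θ * (P' m - P m) = Q m + θ' * (Q' m - Q m)) :
    (P = Q ∧ θ = θ') ∨ (Q = P' ∧ P = Q') := by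
  obtain ⟨m, s, hs, rfl⟩ := hP
  obtain ⟨m', s', hs', rfl⟩ := hQ
  have h' : ∀ k, (P k : ℝ) + θ * ((Pi.single m s : Pt) k : ℝ) =
      Q k + θ' * ((Pi.single m' s' : Pt) k : ℝ) := by
    intro k
    have := h k
    simpa using this
  by_cases hm : m = m'
  · subst hm
    have hoth : ∀ k, k ≠ m → P k = Q k := by
      intro k hk
      have := h' k
      simp only [Pi.single_eq_of_ne hk, Int.cast_zero, mul_zero, add_zero] at this
      exact_mod_cast this
    have hmm := h' m
    simp only [Pi.single_eq_same] at hmm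
    have ext : ∀ (A B : Pt), (∀ k, k ≠ m → A k = B k) → A m = B m → A = B := by
      intro A B h1 h2
      funext k
      by_cases hk : k = m
      · rw [hk, h2]
      · exact h1 k hk
    have same : P m = Q m → P = Q := ext P Q hoth
    have opp : Q m = P m + s → s' = -s → Q = P + Pi.single m s ∧ P = Q + Pi.single m s' := by
      intro h1 h2
      constructor
      · refine ext _ _ (fun k hk => ?_) (by simpa using h1)
        simp [Pi.single_eq_of_ne hk, hoth k hk]
      · refine ext _ _ (fun k hk => ?_) (by simp [h1, h2])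
        simp [Pi.single_eq_of_ne hk, hoth k hk]
    rcases hs with rfl | rfl <;> rcases hs' with rfl | rfl <;> push_cast at hmm
    · have : P m - Q m = 0 := int_eq_zero_of_abs_lt (by push_cast; linarith) (by push_cast; linarith)
      have e : P m = Q m := by omega
      left
      refine ⟨same e, ?_⟩
      rw [e] at hmm
      linarith
    · by_cases e : P m = Q m
      · left
        refine ⟨same e, ?_⟩
        rw [e] at hmm
        linarith
      · right
        refine opp ?_ (by simp)
        have c1 : P m ≤ Q m := by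
          have : (P m : ℝ) ≤ Q m := by linarith
          exact_mod_cast this
        have c2 : Q m < P m + 2 := by
          have : (Q m : ℝ) < P m + 2 := by linarith
          exact_mod_cast this
        omega
    · by_cases e : P m = Q m
      · left
        refine ⟨same e, ?_⟩
        rw [e] at hmm
        linarith
      · right
        refine opp ?_ (by simp)
        have c1 : Q m ≤ P m := by
          have : (Q m : ℝ) ≤ P m := by linarith
          exact_mod_cast this
        have c2 : P m < Q m + 2 := by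
          have : (P m : ℝ) < Q m + 2 := by linarith
          exact_mod_cast this
        omega
    · have : P m - Q m = 0 := int_eq_zero_of_abs_lt (by push_cast; linarith) (by push_cast; linarith)
      have e : P m = Q m := by omega
      left
      refine ⟨same e, ?_⟩
      rw [e] at hmm
      linarith
  · left
    have h1 := h' m
    have h2 := h' m'
    simp only [Pi.single_eq_same, Pi.single_eq_of_ne hm, Pi.single_eq_of_ne (Ne.symm hm),
      Int.cast_zero, mul_zero, add_zero] at h1 h2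
    have t1 : θ = 0 := by
      have : Q m - P m = 0 := by
        rcases hs with rfl | rfl <;> push_cast at h1 <;>
          exact int_eq_zero_of_abs_lt (by push_cast; linarith) (by push_cast; linarith)
      have e : (Q m : ℝ) = P m := by exact_mod_cast sub_eq_zero.1 this
      rcases hs with rfl | rfl <;> push_cast at h1 <;> linarith
    have t2 : θ' = 0 := by
      have : P m' - Q m' = 0 := by
        rcases hs' with rfl | rfl <;> push_cast at h2 <;>
          exact int_eq_zero_of_abs_lt (by push_cast; linarith) (by push_cast; linarith)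
      have e : (P m' : ℝ) = Q m' := by exact_mod_cast sub_eq_zero.1 this
      rcases hs' with rfl | rfl <;> push_cast at h2 <;> linarith
    refine ⟨?_, by rw [t1, t2]⟩
    funext k
    have := h' k
    rw [t1, t2, zero_mul, zero_mul, add_zero, add_zero] at this
    exact_mod_cast this

theorem zmod_two_ne (n : ℕ) (hn : 3 ≤ n) (j : ZMod n) : j + 1 + 1 ≠ j := by
  intro h
  have h2 : ((2 : ℕ) : ZMod n) = 0 := by
    have : j + 2 = j + 0 := by rw [add_zero, ← one_add_one_eq_two, ← add_assoc, h]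
    exact_mod_cast add_left_cancel this
  rw [ZMod.natCast_eq_zero_iff] at h2
  have := Nat.le_of_dvd (by norm_num) h2
  omega

theorem zmod_induction {n : ℕ} [NeZero n] (S : ZMod n → Prop) (j : ZMod n) (h0 : S j)
    (hs : ∀ l, S l → S (l + 1)) : ∀ l, S l := by
  have : ∀ k : ℕ, S (j + k) := by
    intro k
    induction k with
    | zero => simpa using h0
    | succ k ih =>
      have := hs _ ih
      rwa [Nat.cast_succ, ← add_assoc]
  intro l
  have h := this (l - j).val
  rwa [ZMod.natCast_zmod_val, add_sub_cancel] at h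

/-- A lattice cycle in a coordinate plane is unknotted. -/
theorem unknotted_of_planar (i : Fin 3) (n : ℕ) (hn : 3 ≤ n) (w : ZMod n → Pt)
    (hinj : Function.Injective w) (hstep : ∀ j, Step (w j) (w (j + 1)))
    (c : ℤ) (hc : ∀ j, w j i = c) :
    Unknotted (⋃ j, segment ℝ (toSpace (w j)) (toSpace (w (j + 1)))) := by
  refine unknotted_of_simple i n hn (fun j => toSpace (w j)) ?_
  intro j l θ θ' a0 a1 b0 b1 h
  rcases grid_lemma (hstep j) (hstep l) θ θ' a0 a1 b0 b1 (by
    intro m
    by_cases hm : m = i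
    · rw [hm, hc, hc, hc, hc]
      simp
    · simpa [toSpace] using h m hm) with ⟨h1, h2⟩ | ⟨h1, h2⟩
  · exact ⟨hinj h1, h2⟩
  · exfalso
    have e1 := hinj h1
    have e2 := hinj h2
    rw [e1] at e2
    exact zmod_two_ne n hn j e2.symm

/-- The column of a lattice point with respect to the axis `i`. -/
def col (i : Fin 3) (v : Pt) : Pt := Function.update v i 0

theorem col_apply_ne (i : Fin 3) (v : Pt) {m : Fin 3} (h : m ≠ i) : col i v m = v m :=
  Function.update_of_ne h _ _

theorem col_apply_self (i : Fin 3) (v : Pt) : col i v i = 0 := Function.update_self _ _ _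

theorem step_col {i : Fin 3} {u v : Pt} (h : Step u v) (hne : col i v ≠ col i u) :
    ∃ (m : Fin 3) (s : ℤ), m ≠ i ∧ (s = 1 ∨ s = -1) ∧ col i v = col i u + Pi.single m s := by
  obtain ⟨m, s, hs, rfl⟩ := h
  by_cases hm : m = i
  · exfalso
    apply hne
    funext k
    by_cases hk : k = i
    · rw [hk, col_apply_self, col_apply_self]
    · rw [col_apply_ne _ _ hk, col_apply_ne _ _ hk, hm]
      simp [Pi.single_eq_of_ne hk]
  · refine ⟨m, s, hm, hs, ?_⟩
    funext k
    by_cases hk : k = i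
    · rw [hk, Pi.add_apply, col_apply_self, col_apply_self, Pi.single_eq_of_ne (Ne.symm hm)]
      simp
    · rw [Pi.add_apply, col_apply_ne _ _ hk, col_apply_ne _ _ hk]
      simp

theorem unknotted_of_columns (i : Fin 3) (n : ℕ) (hn : 3 ≤ n) (w : ZMod n → Pt)
    (hinj : Function.Injective w) (hstep : ∀ j, Step (w j) (w (j + 1)))
    (V : ZMod n → Prop) (hV : ∀ j, V j ↔ col i (w (j + 1)) = col i (w j))
    (F1 : ∀ j, ¬ (V j ∧ V (j + 1) ∧ V (j + 1 + 1)))
    (F2 : ∀ j l, col i (w j) = col i (w l) → l = j ∨ (l = j + 1 ∧ V j) ∨ (j = l + 1 ∧ V l) ∨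
      (l = j + 1 + 1 ∧ V j ∧ V (j + 1)) ∨ (j = l + 1 + 1 ∧ V l ∧ V (l + 1))) :
    Unknotted (⋃ j, segment ℝ (toSpace (w j)) (toSpace (w (j + 1)))) := by
  classical
  have : NeZero n := ⟨by omega⟩
  let P : ZMod n → Pt := fun j => col i (w j)
  let R : ZMod n → Pt := fun j =>
    if ¬ V j then P (j + 1) else if ¬ V (j + 1) then P (j + 1 + 1) else P (j + 1 + 1 + 1)
  let o : ZMod n → ℝ := fun j => if V (j - 1) then (if V (j - 1 - 1) then 2 else 1) else 0
  have hPV : ∀ j, V j → P (j + 1) = P j := fun j h => (hV j).1 h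
  have hRn : ∀ j, ¬ V j → R j = P (j + 1) := fun j h => by simp only [R]; rw [if_pos h]
  have hRv : ∀ j, V j → R (j + 1) = R j := by
    intro j h
    simp only [R]
    rw [if_neg (not_not.2 h)]
    by_cases h1 : V (j + 1)
    · have h2 : ¬ V (j + 1 + 1) := fun h2 => F1 j ⟨h, h1, h2⟩
      rw [if_neg (not_not.2 h1), if_neg (not_not.2 h1), if_pos h2]
    · rw [if_pos h1, if_pos h1]
  have hon : ∀ j, ¬ V j → o (j + 1) = 0 := by
    intro j h
    simp only [o, add_sub_cancel_right]
    rw [if_neg h]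
  have hov : ∀ j, V j → o (j + 1) = o j + 1 := by
    intro j h
    simp only [o, add_sub_cancel_right]
    rw [if_pos h]
    by_cases h1 : V (j - 1)
    · have h2 : ¬ V (j - 1 - 1) := by
        intro h2
        refine F1 (j - 1 - 1) ⟨h2, ?_, ?_⟩
        · rwa [sub_add_cancel]
        · rwa [sub_add_cancel, sub_add_cancel]
      rw [if_pos h1, if_pos h1, if_neg h2]
      norm_num
    · rw [if_neg h1, if_neg h1]
      norm_num
  have ho0 : ∀ j, 0 ≤ o j := by
    intro j
    simp only [o]
    split_ifs <;> norm_num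
  have ho2 : ∀ j, o j ≤ 2 := by
    intro j
    simp only [o]
    split_ifs <;> norm_num
  have hstepn : ∀ j, ¬ V j → ∃ (m : Fin 3) (s : ℤ), m ≠ i ∧ (s = 1 ∨ s = -1) ∧
      R j = P j + Pi.single m s := by
    intro j h
    rw [hRn j h]
    exact step_col (hstep j) (fun h' => h ((hV j).2 h'))
  have hstepR : ∀ j, ∃ (m : Fin 3) (s : ℤ), m ≠ i ∧ (s = 1 ∨ s = -1) ∧
      R j = P j + Pi.single m s := by
    intro j
    by_cases h : V j
    · rw [← hRv j h, ← hPV j h]
      by_cases h1 : V (j + 1)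
      · rw [← hRv _ h1, ← hPV _ h1]
        exact hstepn _ (fun h2 => F1 j ⟨h, h1, h2⟩)
      · exact hstepn _ h1
    · exact hstepn j h
  have hRP : ∀ j l, P j = P l → R j = R l := by
    intro j l h
    rcases F2 j l h with rfl | ⟨rfl, h1⟩ | ⟨rfl, h1⟩ | ⟨rfl, h1, h2⟩ | ⟨rfl, h1, h2⟩
    · rfl
    · exact (hRv _ h1).symm
    · exact hRv _ h1
    · rw [hRv _ h2, hRv _ h1]
    · rw [hRv _ h2, hRv _ h1]
  by_cases hdeg : ∃ j l, P l = R j ∧ P j = R l
  · obtain ⟨j, l, h1, h2⟩ := hdeg
    have hall : ∀ k, P k = P j ∨ P k = P l := by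
      refine zmod_induction _ j (Or.inl rfl) ?_
      intro k hk
      by_cases hv : V k
      · rwa [hPV k hv]
      · rw [← hRn k hv]
        rcases hk with hk | hk
        · right
          rw [hRP k j hk, h1]
        · left
          rw [hRP k l hk, h2]
    obtain ⟨m, s, hm, -, hR⟩ := hstepR j
    obtain ⟨m0, hm1, hm2⟩ : ∃ m0 : Fin 3, m0 ≠ i ∧ m0 ≠ m :=
      (by decide : ∀ i m : Fin 3, ∃ m0 : Fin 3, m0 ≠ i ∧ m0 ≠ m) i m
    refine unknotted_of_planar m0 n hn w hinj hstep (w j m0) ?_
    intro k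
    have e : ∀ k, w k m0 = P k m0 := fun k => (col_apply_ne i _ hm1).symm
    rw [e, e]
    rcases hall k with hk | hk
    · rw [hk]
    · rw [hk, h1, hR]
      simp [Pi.single_eq_of_ne hm2]
  · obtain ⟨ε, hε0, hε3, hiso⟩ := iso_move_vertices n w hinj hstep
      (fun j => o j • (toSpace (R j) - toSpace (P j)))
    have key := unknotted_of_simple i n hn
      (fun j => toSpace (w j) + ε • o j • (toSpace (R j) - toSpace (P j))) ?_
    · obtain ⟨S, hS, hiso2⟩ := key
      exact ⟨S, hS, Iso.trans hiso hiso2⟩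
    let lam : ZMod n → ℝ → ℝ := fun j θ =>
      if V j then ε * (o j + θ) else ε * o j + θ * (1 - ε * o j)
    have hεo : ∀ j, ε * o j < 1 := fun j => by nlinarith [ho2 j, ho0 j]
    have hlam0 : ∀ j θ, 0 ≤ θ → ε * o j ≤ lam j θ := by
      intro j θ a0
      simp only [lam]
      split_ifs
      · nlinarith
      · nlinarith [hεo j]
    have hlam1 : ∀ j θ, θ < 1 → V j → lam j θ < ε * (o j + 1) := by
      intro j θ a1 h
      simp only [lam]
      rw [if_pos h]
      nlinarith
    have hlam2 : ∀ j θ, θ < 1 → lam j θ < 1 := by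
      intro j θ a1
      by_cases h : V j
      · have := hlam1 j θ a1 h
        nlinarith [ho2 j]
      · simp only [lam]
        rw [if_neg h]
        nlinarith [hεo j]
    have hpt : ∀ j θ m, m ≠ i →
        (toSpace (w j) + ε • o j • (toSpace (R j) - toSpace (P j))) m +
          θ * ((toSpace (w (j + 1)) + ε • o (j + 1) •
            (toSpace (R (j + 1)) - toSpace (P (j + 1)))) m -
            (toSpace (w j) + ε • o j • (toSpace (R j) - toSpace (P j))) m) =
        P j m + lam j θ * (R j m - P j m) := by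
      intro j θ m hm
      have e : ∀ k, w k m = P k m := fun k => (col_apply_ne i _ hm).symm
      simp only [toSpace, PiLp.add_apply, PiLp.smul_apply, PiLp.sub_apply, smul_eq_mul, lam, e]
      by_cases h : V j
      · rw [if_pos h, hRv j h, hPV j h, hov j h]
        ring
      · rw [if_neg h, hon j h, hRn j h]
        ring
    intro j l θ θ' a0 a1 b0 b1 h
    have sj : Step (P j) (R j) := by
      obtain ⟨m, s, -, hs, hR⟩ := hstepR j
      exact ⟨m, s, hs, hR⟩
    have sl : Step (P l) (R l) := by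
      obtain ⟨m, s, -, hs, hR⟩ := hstepR l
      exact ⟨m, s, hs, hR⟩
    have hRi : ∀ k, R k i = 0 := by
      intro k
      obtain ⟨m, s, hm, -, hR⟩ := hstepR k
      rw [hR, Pi.add_apply, Pi.single_eq_of_ne (Ne.symm hm), add_zero]
      exact col_apply_self _ _
    have hPi : ∀ k, P k i = 0 := fun k => col_apply_self _ _
    rcases grid_lemma sj sl (lam j θ) (lam l θ')
      ((mul_nonneg hε0.le (ho0 j)).trans (hlam0 j θ a0)) (hlam2 j θ a1)
      ((mul_nonneg hε0.le (ho0 l)).trans (hlam0 l θ' b0)) (hlam2 l θ' b1) (by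
        intro m
        by_cases hm : m = i
        · rw [hm, hRi, hRi, hPi, hPi]
          simp
        · rw [← hpt j θ m hm, ← hpt l θ' m hm]
          exact h m hm) with ⟨h1, h2⟩ | ⟨h1, h2⟩
    · rcases F2 j l h1 with rfl | ⟨rfl, v1⟩ | ⟨rfl, v1⟩ | ⟨rfl, v1, v2⟩ | ⟨rfl, v1, v2⟩
      · refine ⟨rfl, ?_⟩
        simp only [lam] at h2
        split_ifs at h2
        · have := mul_left_cancel₀ hε0.ne' h2
          linarith
        · have h3 : θ * (1 - ε * o l) = θ' * (1 - ε * o l) := by linarith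
          exact mul_right_cancel₀ (by linarith [hεo l]) h3
      · exfalso
        have c1 := hlam1 j θ a1 v1
        have c2 := hlam0 (j + 1) θ' b0
        rw [hov j v1] at c2
        linarith
      · exfalso
        have c1 := hlam1 l θ' b1 v1
        have c2 := hlam0 (l + 1) θ a0
        rw [hov l v1] at c2
        linarith
      · exfalso
        have c1 := hlam1 j θ a1 v1
        have c2 := hlam0 (j + 1 + 1) θ' b0
        rw [hov _ v2, hov j v1] at c2
        nlinarith
      · exfalso
        have c1 := hlam1 l θ' b1 v1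
        have c2 := hlam0 (l + 1 + 1) θ a0
        rw [hov _ v2, hov l v1] at c2
        nlinarith
    · exact absurd ⟨j, l, h1, h2⟩ hdeg

end Pool.Agent.Lib.MP_fb72b7_co
end
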