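import Mathlib
import Pool.Agent.Lib.MP_fb72b7_co.Cycle

-- part Pool.Agent.Lib.MP_fb72b7_co.Wall
section

/-!
The zigzag wall that the no-knot player moves towards.
-/

namespace Pool.Agent.Lib.MP_fb72b7_co

/-- A triangle wave between `0` and `a` up to time `L`, monotone afterwards. -/
structure Zig (a L : ℤ) (up : Bool) (T : ℤ → ℤ) : Prop where
  step : ∀ t, T (t + 1) = T t + 1 ∨ T (t + 1) = T t - 1
  init : ∀ t, t ≤ a → T t = t
  bnd : ∀ t, 0 ≤ t → t ≤ L → 0 ≤ T t ∧ T t ≤ a
  lo : ∀ t, t ≤ L → 1 ≤ T t → T (t - 1) = T t - 1 ∨ T (t + 1) = T t - 1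
  hi : ∀ t, t ≤ L → T t ≤ a - 1 → T (t - 1) = T t + 1 ∨ T (t + 1) = T t + 1
  tailU : up = true → ∀ t, L ≤ t → T t = t - L
  tailD : up = false → ∀ t, L ≤ t → T t = a - (t - L)

theorem exists_zig (a : ℤ) (ha : 1 ≤ a) (k : ℕ) : ∃ up T, Zig a (k * a) up T := by
  induction k with
  | zero =>
    refine ⟨true, fun t => t, ?_, ?_, ?_, ?_, ?_, ?_, ?_⟩ <;> simp <;> omega
  | succ k ih =>
    obtain ⟨up, T, h⟩ := ih
    have hL : 0 ≤ (k : ℤ) * a := by positivity
    rw [Nat.cast_succ, add_mul, one_mul]
    generalize (k : ℤ) * a = L at h hL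
    cases up with
    | true =>
      have ht := h.tailU rfl
      refine ⟨false, fun t => if t ≤ L + a then T t else a - (t - (L + a)),
        ?_, ?_, ?_, ?_, ?_, ?_, ?_⟩
      · intro t
        have := h.step t
        have := ht (L + a) (by omega)
        split_ifs <;> first | omega | (obtain rfl : t = L + a := (by omega); omega)
      · intro t h1
        rw [if_pos (by omega)]
        exact h.init t h1
      · intro t h1 h2
        rw [if_pos h2]
        by_cases h3 : t ≤ L
        · exact h.bnd t h1 h3
        · have := ht t (by omega)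
          omega
      · intro t h1
        rw [if_pos h1, if_pos (by omega)]
        intro h2
        by_cases h3 : t ≤ L
        · rw [if_pos (by omega)]
          exact h.lo t h3 h2
        · have := ht t (by omega)
          have := ht (t - 1) (by omega)
          omega
      · intro t h1
        rw [if_pos h1, if_pos (by omega)]
        intro h2
        by_cases h3 : t ≤ L
        · rw [if_pos (by omega)]
          exact h.hi t h3 h2
        · have := ht t (by omega)
          have := ht (t + 1) (by omega)
          rw [if_pos (by omega)]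
          omega
      · intro h1
        cases h1
      · intro _ t h1
        have := ht (L + a) (by omega)
        split_ifs
        · have : t = L + a := by omega
          subst this
          omega
        · rfl
    | false =>
      have ht := h.tailD rfl
      refine ⟨true, fun t => if t ≤ L + a then T t else t - (L + a),
        ?_, ?_, ?_, ?_, ?_, ?_, ?_⟩
      · intro t
        have := h.step t
        have := ht (L + a) (by omega)
        split_ifs <;> first | omega | (obtain rfl : t = L + a := (by omega); omega)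
      · intro t h1
        rw [if_pos (by omega)]
        exact h.init t h1
      · intro t h1 h2
        rw [if_pos h2]
        by_cases h3 : t ≤ L
        · exact h.bnd t h1 h3
        · have := ht t (by omega)
          omega
      · intro t h1
        rw [if_pos h1, if_pos (by omega)]
        intro h2
        by_cases h3 : t ≤ L
        · rw [if_pos (by omega)]
          exact h.lo t h3 h2
        · have := ht t (by omega)
          have := ht (t + 1) (by omega)
          rw [if_pos (by omega)]
          omega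
      · intro t h1
        rw [if_pos h1, if_pos (by omega)]
        intro h2
        by_cases h3 : t ≤ L
        · rw [if_pos (by omega)]
          exact h.hi t h3 h2
        · have := ht t (by omega)
          have := ht (t - 1) (by omega)
          omega
      · intro _ t h1
        have := ht (L + a) (by omega)
        split_ifs
        · have : t = L + a := by omega
          subst this
          omega
        · rfl
      · intro h1
        cases h1

/-- The profile of the wall, as a function of the sum of the two long coordinates. -/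
theorem exists_profile (a M S δ : ℤ) (ha : 1 ≤ a) (hM : a ≤ M) (hS : a + M ≤ S)
    (hδ : δ = 0 ∨ δ = 1) :
    ∃ T : ℤ → ℤ, (∀ s, T (s + 1) = T s + 1 ∨ T (s + 1) = T s - 1) ∧ T 1 = 1 - δ ∧
      (∀ s, 0 ≤ s → s ≤ S → 1 ≤ T s →
        (1 ≤ s ∧ T (s - 1) = T s - 1) ∨ (s < S ∧ T (s + 1) = T s - 1)) ∧
      (∀ s, 0 ≤ s → s ≤ S → T s ≤ a - 1 →
        (1 ≤ s ∧ T (s - 1) = T s + 1) ∨ (s < S ∧ T (s + 1) = T s + 1)) ∧
      (∀ s, 0 ≤ s → s ≤ S → a + 1 ≤ T s → M < s ∧ T (s - 1) = T s - 1) ∧
      (∀ s, 0 ≤ s → s ≤ S → T s ≤ -1 →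
        (M < s ∧ T (s - 1) = T s + 1) ∨ (s = 0 ∧ T (s + 1) = T s + 1)) := by
  obtain ⟨k, hk1, hk2⟩ : ∃ k : ℕ, M ≤ δ + k * a + a ∧ δ + k * a + a ≤ S := by
    by_cases h : M ≤ δ + a
    · exact ⟨0, by simpa using h, by simp; omega⟩
    · have h0 : 0 ≤ (M - δ - 1) / a := Int.ediv_nonneg (by omega) (by omega)
      refine ⟨((M - δ - 1) / a).toNat, ?_, ?_⟩
      · rw [Int.toNat_of_nonneg h0]
        have := Int.lt_ediv_add_one_mul_self (M - δ - 1) (by omega : 0 < a)
        nlinarith
      · rw [Int.toNat_of_nonneg h0]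
        have := Int.ediv_mul_le (M - δ - 1) (by omega : a ≠ 0)
        omega
  obtain ⟨up, T, h⟩ := exists_zig a ha k
  have hL : 0 ≤ (k : ℤ) * a := by positivity
  generalize (k : ℤ) * a = L at h hL hk1 hk2
  have e1 : ∀ s, s + 1 - δ = s - δ + 1 := fun s => by ring
  have e2 : ∀ s, s - 1 - δ = s - δ - 1 := fun s => by ring
  refine ⟨fun s => T (s - δ), ?_, ?_, ?_, ?_, ?_, ?_⟩
  · intro s
    simp only [e1]
    exact h.step _
  · exact h.init _ (by omega)
  · intro s h0 h1 h2
    simp only [e1, e2] at h2 ⊢
    have i1 := h.init (s - δ)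
    by_cases h3 : s - δ ≤ L
    · have := h.lo _ h3 h2
      omega
    · cases up with
      | true =>
        have := h.tailU rfl (s - δ) (by omega)
        have := h.tailU rfl (s - δ - 1) (by omega)
        omega
      | false =>
        have := h.tailD rfl (s - δ) (by omega)
        have := h.tailD rfl (s - δ + 1) (by omega)
        omega
  · intro s h0 h1 h2
    simp only [e1, e2] at h2 ⊢
    have i1 := h.init (s - δ)
    have i2 := h.init (s - δ - 1)
    by_cases h3 : s - δ ≤ L
    · have := h.hi _ h3 h2
      omega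
    · cases up with
      | true =>
        have := h.tailU rfl (s - δ) (by omega)
        have := h.tailU rfl (s - δ + 1) (by omega)
        omega
      | false =>
        have := h.tailD rfl (s - δ) (by omega)
        have := h.tailD rfl (s - δ - 1) (by omega)
        omega
  · intro s h0 h1 h2
    simp only [e2] at h2 ⊢
    have i1 := h.init (s - δ)
    by_cases h3 : s - δ ≤ L
    · have := h.bnd (s - δ)
      omega
    · cases up with
      | true =>
        have := h.tailU rfl (s - δ) (by omega)
        have := h.tailU rfl (s - δ - 1) (by omega)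
        omega
      | false =>
        have := h.tailD rfl (s - δ) (by omega)
        omega
  · intro s h0 h1 h2
    simp only [e1, e2] at h2 ⊢
    have i1 := h.init (s - δ)
    have i2 := h.init (s - δ + 1)
    by_cases h3 : s - δ ≤ L
    · have := h.bnd (s - δ)
      omega
    · cases up with
      | true =>
        have := h.tailU rfl (s - δ) (by omega)
        omega
      | false =>
        have := h.tailD rfl (s - δ) (by omega)
        have := h.tailD rfl (s - δ - 1) (by omega)
        omega

/-- A horizontal move from `u` inside the box that changes the wall height by `σ`. -/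
def HMove (n : Fin 3 → ℕ) (i : Fin 3) (G : Pt → ℤ) (σ : ℤ) (u w : Pt) : Prop :=
  InBox n w ∧ Step u w ∧ w i = u i ∧ G w = G u + σ

/-- The properties of the wall height `G`. -/
structure Wall (n : Fin 3 → ℕ) (i : Fin 3) (G : Pt → ℤ) : Prop where
  colEq : ∀ u v, col i u = col i v → G u = G v
  step : ∀ u v, Step u v → col i v ≠ col i u → G v = G u + 1 ∨ G v = G u - 1
  below : ∀ u, InBox n u → u i < G u → ∃ w, HMove n i G (-1) u w
  above : ∀ u, InBox n u → G u < u i → ∃ w, HMove n i G 1 u w
  below2 : ∀ u, InBox n u → u i < G u → u i = n i →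
    ∃ w w', w ≠ w' ∧ HMove n i G (-1) u w ∧ HMove n i G (-1) u w'
  above2 : ∀ u, InBox n u → G u < u i → u i = 0 →
    ∃ w w', w ≠ w' ∧ HMove n i G 1 u w ∧ HMove n i G 1 u w'

theorem exists_wall (n : Fin 3 → ℕ) (i : Fin 3) (h1 : 1 ≤ n i) (hmin : ∀ m, n i ≤ n m)
    (δ : ℤ) (hδ : δ = 0 ∨ δ = 1) :
    ∃ G, Wall n i G ∧ G (Pi.single (i + 1) 1) = 1 - δ := by
  have d1 : i + 1 ≠ i := (by decide : ∀ i : Fin 3, i + 1 ≠ i) i
  have d2 : i + 2 ≠ i := (by decide : ∀ i : Fin 3, i + 2 ≠ i) i
  have d3 : i + 2 ≠ i + 1 := (by decide : ∀ i : Fin 3, i + 2 ≠ i + 1) i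
  have d4 : ∀ m : Fin 3, m ≠ i → m = i + 1 ∨ m = i + 2 :=
    (by decide : ∀ i m : Fin 3, m ≠ i → m = i + 1 ∨ m = i + 2) i
  have hb := hmin (i + 1)
  have hc := hmin (i + 2)
  obtain ⟨T, t1, t2, t3, t4, t5, t6⟩ := exists_profile (n i) (max (n (i + 1)) (n (i + 2)))
    (n (i + 1) + n (i + 2)) δ (by omega) (by omega) (by omega) hδ
  let sm : Pt → ℤ := fun v => v (i + 1) + v (i + 2)
  have hmove : ∀ (u : Pt) (m : Fin 3) (s σ : ℤ), InBox n u → m ≠ i → (s = 1 ∨ s = -1) →
      0 ≤ u m + s → u m + s ≤ n m → T (sm u + s) = T (sm u) + σ →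
      HMove n i (fun v => T (sm v)) σ u (u + Pi.single m s) := by
    intro u m s σ hu hm hs a1 a2 a3
    refine ⟨?_, ⟨m, s, hs, rfl⟩, ?_, ?_⟩
    · intro k
      by_cases hk : k = m
      · subst hk
        simpa using ⟨a1, a2⟩
      · simpa [Pi.single_eq_of_ne hk] using hu k
    · simp [Pi.single_eq_of_ne (Ne.symm hm)]
    · simp only
      rw [← a3]
      congr 1
      simp only [sm]
      rcases d4 m hm with rfl | rfl
      · simp
        ring
      · simp
        ring
  have hne : ∀ (u : Pt) (s : ℤ), s ≠ 0 →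
      u + Pi.single (i + 1) s ≠ u + Pi.single (i + 2) s := by
    intro u s hs h
    have := congrFun h (i + 1)
    simp at this
    exact hs this
  have hdown : ∀ (u : Pt) (σ : ℤ), InBox n u → 1 ≤ sm u → T (sm u - 1) = T (sm u) + σ →
      ∃ w, HMove n i (fun v => T (sm v)) σ u w := by
    intro u σ hu a1 a2
    have b1 := hu (i + 1)
    have b2 := hu (i + 2)
    simp only [sm] at a1
    by_cases h : 1 ≤ u (i + 1)
    · exact ⟨_, hmove u (i + 1) (-1) σ hu d1 (Or.inr rfl) (by omega) (by omega) a2⟩
    · exact ⟨_, hmove u (i + 2) (-1) σ hu d2 (Or.inr rfl) (by omega) (by omega) a2⟩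
  have hup : ∀ (u : Pt) (σ : ℤ), InBox n u → sm u < n (i + 1) + n (i + 2) →
      T (sm u + 1) = T (sm u) + σ → ∃ w, HMove n i (fun v => T (sm v)) σ u w := by
    intro u σ hu a1 a2
    have b1 := hu (i + 1)
    have b2 := hu (i + 2)
    simp only [sm] at a1
    by_cases h : u (i + 1) < n (i + 1)
    · exact ⟨_, hmove u (i + 1) 1 σ hu d1 (Or.inl rfl) (by omega) (by omega) a2⟩
    · exact ⟨_, hmove u (i + 2) 1 σ hu d2 (Or.inl rfl) (by omega) (by omega) a2⟩
  have hdown2 : ∀ (u : Pt) (σ : ℤ), InBox n u → max (n (i + 1) : ℤ) (n (i + 2)) < sm u →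
      T (sm u - 1) = T (sm u) + σ → ∃ w w', w ≠ w' ∧ HMove n i (fun v => T (sm v)) σ u w ∧
        HMove n i (fun v => T (sm v)) σ u w' := by
    intro u σ hu a1 a2
    have b1 := hu (i + 1)
    have b2 := hu (i + 2)
    simp only [sm] at a1
    exact ⟨_, _, hne u (-1) (by omega),
      hmove u (i + 1) (-1) σ hu d1 (Or.inr rfl) (by omega) (by omega) a2,
      hmove u (i + 2) (-1) σ hu d2 (Or.inr rfl) (by omega) (by omega) a2⟩
  have hsm : ∀ u, InBox n u → 0 ≤ sm u ∧ sm u ≤ n (i + 1) + n (i + 2) := by
    intro u hu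
    have b1 := hu (i + 1)
    have b2 := hu (i + 2)
    simp only [sm]
    omega
  refine ⟨fun v => T (sm v), ⟨?_, ?_, ?_, ?_, ?_, ?_⟩, ?_⟩
  · intro u v h
    have a1 := congrFun h (i + 1)
    have a2 := congrFun h (i + 2)
    rw [col_apply_ne _ _ d1, col_apply_ne _ _ d1] at a1
    rw [col_apply_ne _ _ d2, col_apply_ne _ _ d2] at a2
    simp only [sm, a1, a2]
  · intro u v h hne
    obtain ⟨m, s, hm, hs, he⟩ := step_col h hne
    have a1 := congrFun he (i + 1)
    have a2 := congrFun he (i + 2)
    rw [Pi.add_apply, col_apply_ne _ _ d1, col_apply_ne _ _ d1] at a1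
    rw [Pi.add_apply, col_apply_ne _ _ d2, col_apply_ne _ _ d2] at a2
    have a3 : sm v = sm u + s := by
      simp only [sm, a1, a2]
      rcases d4 m hm with rfl | rfl
      · simp
        ring
      · simp
        ring
    simp only [a3]
    rcases hs with rfl | rfl
    · exact t1 _
    · have := t1 (sm u + -1)
      rw [neg_add_cancel_right] at this
      omega
  · intro u hu h
    obtain ⟨s1, s2⟩ := hsm u hu
    have b := hu i
    rcases t3 (sm u) s1 s2 (by omega) with ⟨a1, a2⟩ | ⟨a1, a2⟩
    · exact hdown u _ hu a1 a2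
    · exact hup u _ hu a1 a2
  · intro u hu h
    obtain ⟨s1, s2⟩ := hsm u hu
    have b := hu i
    rcases t4 (sm u) s1 s2 (by omega) with ⟨a1, a2⟩ | ⟨a1, a2⟩
    · exact hdown u _ hu a1 a2
    · exact hup u _ hu a1 a2
  · intro u hu h h'
    obtain ⟨s1, s2⟩ := hsm u hu
    obtain ⟨a1, a2⟩ := t5 (sm u) s1 s2 (by omega)
    exact hdown2 u _ hu a1 a2
  · intro u hu h h'
    obtain ⟨s1, s2⟩ := hsm u hu
    rcases t6 (sm u) s1 s2 (by omega) with ⟨a1, a2⟩ | ⟨a1, a2⟩
    · exact hdown2 u _ hu a1 a2
    · have b1 := hu (i + 1)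
      have b2 := hu (i + 2)
      have a3 := a1
      simp only [sm] at a3
      exact ⟨_, _, hne u 1 (by omega),
        hmove u (i + 1) 1 1 hu d1 (Or.inl rfl) (by omega) (by omega) a2,
        hmove u (i + 2) 1 1 hu d2 (Or.inl rfl) (by omega) (by omega) a2⟩
  · simp only [sm]
    rw [← t2]
    simp

end Pool.Agent.Lib.MP_fb72b7_co
end

-- part Pool.Agent.Lib.MP_fb72b7_co.Game
section

/-!
The strategy of the no-knot player.
-/

namespace Pool.Agent.Lib.MP_fb72b7_co

open Set

/-- Signed distance to the wall. -/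
def off (i : Fin 3) (G : Pt → ℤ) (v : Pt) : ℤ := v i - G v

/-- The sign of a nonzero integer. -/
def sg (x : ℤ) : ℤ := if 0 < x then 1 else -1

/-- The neighbour in the same column towards the wall. -/
def kap (i : Fin 3) (G : Pt → ℤ) (v : Pt) : Pt := v + Pi.single i (-sg (off i G v))

theorem eq_of_col {i : Fin 3} {u v : Pt} (h : col i u = col i v) (h' : u i = v i) : u = v := by
  funext m
  by_cases hm : m = i
  · rw [hm, h']
  · have := congrFun h m
    rwa [col_apply_ne _ _ hm, col_apply_ne _ _ hm] at this

theorem col_add_single (i : Fin 3) (u : Pt) (s : ℤ) : col i (u + Pi.single i s) = col i u := by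
  funext m
  by_cases hm : m = i
  · rw [hm, col_apply_self, col_apply_self]
  · rw [col_apply_ne _ _ hm, col_apply_ne _ _ hm]
    simp [Pi.single_eq_of_ne hm]

theorem col_kap (i : Fin 3) (G : Pt → ℤ) (u : Pt) : col i (kap i G u) = col i u :=
  col_add_single _ _ _

theorem kap_apply (i : Fin 3) (G : Pt → ℤ) (u : Pt) : kap i G u i = u i - sg (off i G u) := by
  simp [kap, sub_eq_add_neg]

theorem sg_cases (x : ℤ) : (0 < x ∧ sg x = 1) ∨ (x ≤ 0 ∧ sg x = -1) := by
  unfold sg
  split_ifs <;> omega

theorem step_kap (i : Fin 3) (G : Pt → ℤ) (u : Pt) : Step u (kap i G u) :=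
  ⟨i, _, by have := sg_cases (off i G u); omega, rfl⟩

theorem step_of_col {i : Fin 3} {u v : Pt} (h : Step u v) (hc : col i v = col i u) :
    v i = u i + 1 ∨ v i = u i - 1 := by
  obtain ⟨m, s, hs, rfl⟩ := h
  by_cases hm : m = i
  · subst hm
    simp only [Pi.add_apply, Pi.single_eq_same]
    omega
  · exfalso
    have := congrFun hc m
    rw [col_apply_ne _ _ hm, col_apply_ne _ _ hm] at this
    simp only [Pi.add_apply, Pi.single_eq_same] at this
    omega

theorem step_of_not_col {i : Fin 3} {u v : Pt} (h : Step u v) (hc : col i v ≠ col i u) :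
    v i = u i := by
  obtain ⟨m, s, hs, rfl⟩ := h
  by_cases hm : m = i
  · subst hm
    exact absurd (col_add_single _ _ _) hc
  · simp [Pi.single_eq_of_ne (Ne.symm hm)]

variable {n : Fin 3 → ℕ} {i : Fin 3} {G : Pt → ℤ}

theorem off_step (hG : Wall n i G) {u v : Pt} (h : Step u v) :
    off i G v = off i G u + 1 ∨ off i G v = off i G u - 1 := by
  unfold off
  by_cases hc : col i v = col i u
  · have := step_of_col h hc
    have := hG.colEq _ _ hc
    omega
  · have := step_of_not_col h hc
    have := hG.step _ _ h hc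
    omega

theorem off_kap (hG : Wall n i G) (u : Pt) :
    off i G (kap i G u) = off i G u - sg (off i G u) := by
  have h1 := hG.colEq _ _ (col_kap i G u)
  have h2 := kap_apply i G u
  unfold off at *
  omega

theorem inBox_of_col {u v : Pt} (hu : InBox n u) (hc : col i v = col i u) (h0 : 0 ≤ v i)
    (h1 : v i ≤ n i) : InBox n v := by
  intro m
  by_cases hm : m = i
  · rw [hm]
    exact ⟨h0, h1⟩
  · have := congrFun hc m
    rw [col_apply_ne _ _ hm, col_apply_ne _ _ hm] at this
    rw [this]
    exact hu m

theorem exists_move (hG : Wall n i G) (u prev : Pt) (hu : InBox n u) (h0 : off i G u ≠ 0) :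
    ∃ w, InBox n w ∧ Step u w ∧ w ≠ prev ∧ off i G w = off i G u - sg (off i G u) ∧
      (InBox n (kap i G u) → w = kap i G u ∨ prev = kap i G u) := by
  have hk := kap_apply i G u
  have hs := sg_cases (off i G u)
  have hb := hu i
  have hoff : ∀ w, HMove n i G (sg (off i G u)) u w →
      off i G w = off i G u - sg (off i G u) := by
    rintro w ⟨-, -, a, b⟩
    unfold off at *
    omega
  by_cases hbox : InBox n (kap i G u)
  · by_cases hp : prev = kap i G u
    · obtain ⟨w, hw⟩ : ∃ w, HMove n i G (sg (off i G u)) u w := by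
        rcases hs with ⟨a, b⟩ | ⟨a, b⟩
        · rw [b]
          exact hG.above u hu (by unfold off at a; omega)
        · rw [b]
          exact hG.below u hu (by unfold off at a h0; omega)
      refine ⟨w, hw.1, hw.2.1, ?_, hoff w hw, fun _ => Or.inr hp⟩
      intro h
      have := hw.2.2.1
      rw [h, hp] at this
      omega
    · exact ⟨kap i G u, hbox, step_kap i G u, Ne.symm hp, off_kap hG u, fun _ => Or.inl rfl⟩
  · have hnot : ¬ (0 ≤ kap i G u i ∧ kap i G u i ≤ n i) :=
      fun h => hbox (inBox_of_col hu (col_kap i G u) h.1 h.2)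
    obtain ⟨w, w', hne, hw, hw'⟩ : ∃ w w', w ≠ w' ∧ HMove n i G (sg (off i G u)) u w ∧
        HMove n i G (sg (off i G u)) u w' := by
      rcases hs with ⟨a, b⟩ | ⟨a, b⟩
      · rw [b]
        exact hG.above2 u hu (by unfold off at a; omega) (by omega)
      · rw [b]
        exact hG.below2 u hu (by unfold off at a h0; omega) (by omega)
    by_cases hp : w = prev
    · exact ⟨w', hw'.1, hw'.2.1, by rw [← hp]; exact hne.symm, hoff w' hw', fun h => absurd h hbox⟩
    · exact ⟨w, hw.1, hw.2.1, hp, hoff w hw, fun h => absurd h hbox⟩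

theorem unknotted_cycle (hG : Wall n i G) (N : ℕ) (hN : 3 ≤ N) (w : ZMod N → Pt)
    (hinj : Function.Injective w) (hstep : ∀ j, Step (w j) (w (j + 1)))
    (hbox : ∀ j, InBox n (w j))
    (S2 : ∀ j, Odd (off i G (w j)) → off i G (w (j + 1)) = off i G (w j) - sg (off i G (w j)))
    (S3 : ∀ j, Odd (off i G (w j)) → InBox n (kap i G (w j)) →
      w (j + 1) = kap i G (w j) ∨ w (j - 1) = kap i G (w j) ∨
        (j = 0 ∧ ∀ l, w l ≠ kap i G (w j))) :
    Unknotted (⋃ j, segment ℝ (toSpace (w j)) (toSpace (w (j + 1)))) := by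
  classical
  have : NeZero N := ⟨by omega⟩
  let f : ZMod N → ℤ := fun j => off i G (w j)
  let g : ZMod N → ℤ := fun j => if f j % 2 = 0 then f j else f j - sg (f j)
  have hf : ∀ j, f (j + 1) = f j + 1 ∨ f (j + 1) = f j - 1 := fun j => off_step hG (hstep j)
  have S2' : ∀ j, f j % 2 = 1 → f (j + 1) = f j - sg (f j) :=
    fun j h => S2 j (Int.odd_iff.2 h)
  have hmono : ∀ j, (g (j + 1)).natAbs ≤ (g j).natAbs ∧
      ((g (j + 1)).natAbs = (g j).natAbs → g (j + 1) = g j) := by
    intro j
    have a1 := hf j
    have a2 := S2' j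
    have a3 := sg_cases (f j)
    have a4 := sg_cases (f (j + 1))
    simp only [g]
    split_ifs <;> omega
  have hsum : ∑ j, (g (j + 1)).natAbs = ∑ j, (g j).natAbs :=
    Equiv.sum_comp (Equiv.addRight (1 : ZMod N)) (fun j => (g j).natAbs)
  have heq : ∀ j, g (j + 1) = g j := by
    intro j
    exact (hmono j).2 ((Finset.sum_eq_sum_iff_of_le (fun j _ => (hmono j).1)).1 hsum j
      (Finset.mem_univ _))
  have hconst : ∀ j, g j = g 0 :=
    zmod_induction (fun j => g j = g 0) 0 rfl (fun l hl => (heq l).trans hl)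
  obtain ⟨f0, hf0⟩ : ∃ f0 : ℤ, ∀ j, (f j % 2 = 0 ∧ f j = f0) ∨
      (f j % 2 = 1 ∧ f j - sg (f j) = f0) := by
    refine ⟨g 0, fun j => ?_⟩
    have := hconst j
    simp only [g] at this ⊢
    split_ifs at this ⊢ <;> omega
  have hcol : ∀ j l, col i (w j) = col i (w l) → w j i - w l i = f j - f l := by
    intro j l h
    have := hG.colEq _ _ h
    simp only [f, off]
    omega
  have hNK : ∀ j l, col i (w j) = col i (w l) → f j % 2 = 1 → f l % 2 = 0 →
      (l = j + 1 ∧ col i (w (j + 1)) = col i (w j)) ∨
        (j = l + 1 ∧ col i (w (l + 1)) = col i (w l)) := by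
    intro j l h h1 h2
    have a1 := hcol j l h
    have a2 := hf0 j
    have a3 := hf0 l
    have a4 := kap_apply i G (w j)
    have e : w l = kap i G (w j) :=
      eq_of_col (h.symm.trans (col_kap i G _).symm) (by simp only [f] at *; omega)
    rcases S3 j (Int.odd_iff.2 h1) (e ▸ hbox l) with b | b | b
    · left
      have : l = j + 1 := hinj (e.trans b.symm)
      exact ⟨this, by rw [← this, h]⟩
    · right
      have : l = j - 1 := hinj (e.trans b.symm)
      have : j = l + 1 := by rw [this, sub_add_cancel]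
      exact ⟨this, by rw [← this, h]⟩
    · exact absurd e (b.2 l)
  refine unknotted_of_columns i N hN w hinj hstep
    (fun j => col i (w (j + 1)) = col i (w j)) (fun j => Iff.rfl) ?_ ?_
  · rintro j ⟨v1, v2, v3⟩
    have a1 := step_of_col (hstep j) v1
    have a2 := step_of_col (hstep _) v2
    have a3 := step_of_col (hstep _) v3
    have b1 : w (j + 1 + 1) i ≠ w j i := fun h =>
      zmod_two_ne N hN j (hinj (eq_of_col (v2.trans v1) h))
    have b2 : w (j + 1 + 1 + 1) i ≠ w (j + 1) i := fun h =>
      zmod_two_ne N hN (j + 1) (hinj (eq_of_col (v3.trans v2) h))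
    have c := hcol _ _ (v3.trans (v2.trans v1))
    have d1 := hf0 j
    have d2 := hf0 (j + 1 + 1 + 1)
    have d3 := sg_cases (f j)
    have d4 := sg_cases (f (j + 1 + 1 + 1))
    omega
  · intro j l h
    by_cases hjl : l = j
    · exact Or.inl hjl
    right
    have hne : w j i ≠ w l i := fun h' => hjl (hinj (eq_of_col h h')).symm
    have a1 := hcol j l h
    have a2 := hf0 j
    have a3 := hf0 l
    by_cases p1 : f j % 2 = 0
    · by_cases p2 : f l % 2 = 0
      · exfalso
        omega
      · rcases hNK l j h.symm (by omega) p1 with b | b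
        · exact Or.inr (Or.inl b)
        · exact Or.inl b
    · by_cases p2 : f l % 2 = 0
      · rcases hNK j l h (by omega) p2 with b | b
        · exact Or.inl b
        · exact Or.inr (Or.inl b)
      · right
        right
        have d3 := sg_cases (f j)
        have d4 := sg_cases (f l)
        have k1 := kap_apply i G (w j)
        have k2 := kap_apply i G (w l)
        have e : kap i G (w l) = kap i G (w j) :=
          eq_of_col ((col_kap i G _).trans (h.symm.trans (col_kap i G _).symm))
            (by simp only [f] at *; omega)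
        have b1 := hbox j i
        have b2 := hbox l i
        have hb : InBox n (kap i G (w j)) :=
          inBox_of_col (hbox j) (col_kap i G _) (by simp only [f] at *; omega)
            (by simp only [f] at *; omega)
        have s1 := S3 j (Int.odd_iff.2 (by simp only [f] at *; omega)) hb
        have s2 := S3 l (Int.odd_iff.2 (by simp only [f] at *; omega)) (e ▸ hb)
        rw [e] at s2
        have ck := col_kap i G (w j)
        rcases s1 with s1 | s1 | s1
        · rcases s2 with s2 | s2 | s2
          · exact absurd (add_right_cancel (hinj (s2.trans s1.symm))) hjl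
          · left
            have t : l - 1 = j + 1 := hinj (s2.trans s1.symm)
            have t' : l = j + 1 + 1 := by rw [← t, sub_add_cancel]
            refine ⟨t', by rw [s1, ck], ?_⟩
            rw [← t', s1, ck, h]
          · exact absurd s1 (s2.2 _)
        · rcases s2 with s2 | s2 | s2
          · right
            have t : j - 1 = l + 1 := hinj (s1.trans s2.symm)
            have t' : j = l + 1 + 1 := by rw [← t, sub_add_cancel]
            refine ⟨t', by rw [s2, ck, h], ?_⟩
            rw [← t', s2, ck]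
          · exact absurd (sub_left_injective (hinj (s2.trans s1.symm))) hjl
          · exact absurd s1 (s2.2 _)
        · rcases s2 with s2 | s2 | s2
          · exact absurd s2 (s1.2 _)
          · exact absurd s2 (s1.2 _)
          · exact absurd (s2.1.trans s1.1.symm) hjl

/-- The move from `v j` to `nxt` follows the strategy when it is a move of the no-knot player. -/
def Good (n : Fin 3 → ℕ) (i : Fin 3) (G : Pt → ℤ) (v : ℕ → Pt) (j : ℕ) (nxt : Pt) : Prop :=
  Odd (off i G (v j)) → off i G nxt = off i G (v j) - sg (off i G (v j)) ∧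
    (InBox n (kap i G (v j)) → nxt = kap i G (v j) ∨ (1 ≤ j ∧ v (j - 1) = kap i G (v j)))

/-- The invariant of the strategy. -/
structure Inv (n : Fin 3 → ℕ) (i : Fin 3) (G : Pt → ℤ) (k : ℕ) (v : ℕ → Pt) : Prop where
  pos : 1 ≤ k
  box : ∀ j, j ≤ k → InBox n (v j)
  step : ∀ j, j < k → Step (v j) (v (j + 1))
  inj : ∀ j l, j ≤ k → l ≤ k → v j = v l → j = l
  good : ∀ j, j < k → Good n i G v j (v (j + 1))

theorem zmod_succ_val (N : ℕ) (j : ZMod (N + 1)) :
    (j.val < N ∧ (j + 1).val = j.val + 1) ∨ (j.val = N ∧ (j + 1).val = 0) := by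
  have hlt : j.val < N + 1 := ZMod.val_lt j
  have e : j + 1 = ((j.val + 1 : ℕ) : ZMod (N + 1)) := by
    push_cast
    rw [ZMod.natCast_zmod_val]
  rw [e, ZMod.val_natCast]
  rcases Nat.lt_succ_iff_lt_or_eq.1 hlt with h | h
  · left
    exact ⟨h, Nat.mod_eq_of_lt (by omega)⟩
  · right
    exact ⟨h, by rw [h, Nat.mod_self]⟩

theorem unknotted_loop (hG : Wall n i G) {k : ℕ} {v : ℕ → Pt} (h : Inv n i G k v) {s : ℕ}
    (hs : s + 2 ≤ k) (hstep : Step (v k) (v s)) (hgood : Good n i G v k (v s)) :
    Unknotted (polygon v s k) := by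
  obtain ⟨N, rfl⟩ : ∃ N, k = s + N := ⟨k - s, by omega⟩
  let w : ZMod (N + 1) → Pt := fun j => v (s + j.val)
  have hlt : ∀ j : ZMod (N + 1), j.val ≤ N := fun j => Nat.lt_succ_iff.1 (ZMod.val_lt j)
  have hw : ∀ j : ZMod (N + 1), (j.val < N ∧ w (j + 1) = v (s + j.val + 1)) ∨
      (j.val = N ∧ w (j + 1) = v s) := by
    intro j
    rcases zmod_succ_val N j with ⟨a, b⟩ | ⟨a, b⟩
    · left
      exact ⟨a, by simp only [w]; rw [b, add_assoc]⟩
    · right
      exact ⟨a, by simp only [w]; rw [b, add_zero]⟩
  have hgood' : ∀ j : ZMod (N + 1), Good n i G v (s + j.val) (w (j + 1)) := by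
    intro j
    rcases hw j with ⟨a, b⟩ | ⟨a, b⟩
    · rw [b]
      exact h.good _ (by omega)
    · rw [b, a]
      exact hgood
  have key := unknotted_cycle hG (N + 1) (by omega) w ?_ ?_ ?_ ?_ ?_
  · convert key using 1
    unfold polygon
    ext x
    simp only [mem_union, mem_iUnion, mem_Ico, exists_prop]
    constructor
    · rintro (⟨j, ⟨a, b⟩, hx⟩ | hx)
      · obtain ⟨t, rfl⟩ : ∃ t, j = s + t := ⟨j - s, by omega⟩
        have hv : ((t : ZMod (N + 1))).val = t := ZMod.val_natCast_of_lt (by omega)
        refine ⟨(t : ZMod (N + 1)), ?_⟩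
        rcases hw (t : ZMod (N + 1)) with ⟨c, d⟩ | ⟨c, d⟩
        · rw [d]
          simp only [w]
          rwa [hv]
        · omega
      · have hv : ((N : ZMod (N + 1))).val = N := ZMod.val_natCast_of_lt (by omega)
        refine ⟨(N : ZMod (N + 1)), ?_⟩
        rcases hw (N : ZMod (N + 1)) with ⟨c, d⟩ | ⟨c, d⟩
        · omega
        · rw [d]
          simp only [w]
          rwa [hv]
    · rintro ⟨j, hx⟩
      rcases hw j with ⟨c, d⟩ | ⟨c, d⟩
      · left
        rw [d] at hx
        exact ⟨s + j.val, ⟨by omega, by omega⟩, hx⟩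
      · right
        rw [d] at hx
        simp only [w] at hx
        rwa [c] at hx
  · intro j l hjl
    have := h.inj _ _ (by have := hlt j; omega) (by have := hlt l; omega) hjl
    exact ZMod.val_injective _ (by omega)
  · intro j
    rcases hw j with ⟨a, b⟩ | ⟨a, b⟩
    · rw [b]
      exact h.step _ (by omega)
    · rw [b]
      simp only [w]
      rwa [a]
  · intro j
    exact h.box _ (by have := hlt j; omega)
  · intro j hj
    exact (hgood' j hj).1
  · intro j hj hb
    rcases (hgood' j hj).2 hb with a | ⟨a, b⟩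
    · exact Or.inl a
    · right
      rcases zmod_succ_val N (j - 1) with ⟨c, d⟩ | ⟨c, d⟩
      · left
        rw [sub_add_cancel] at d
        simp only [w]
        rw [← b, d]
        rfl
      · right
        rw [sub_add_cancel] at d
        refine ⟨(ZMod.val_eq_zero j).1 d, fun l hl => ?_⟩
        simp only [w] at hl
        rw [← b] at hl
        have := h.inj _ _ (by have := hlt l; omega) (by omega) hl
        omega

theorem Inv.extend {k : ℕ} {v : ℕ → Pt} (h : Inv n i G k v) {w : Pt} (hb : InBox n w)
    (hs : Step (v k) w) (hnew : ∀ j ≤ k, v j ≠ w) (hg : Good n i G v k w) :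
    Inv n i G (k + 1) (Function.update v (k + 1) w) := by
  have e1 : ∀ j, j ≤ k → Function.update v (k + 1) w j = v j :=
    fun j hj => Function.update_of_ne (by omega) _ _
  have e2 : Function.update v (k + 1) w (k + 1) = w := Function.update_self _ _ _
  refine ⟨by omega, ?_, ?_, ?_, ?_⟩
  · intro j hj
    rcases Nat.lt_or_eq_of_le hj with a | a
    · rw [e1 j (by omega)]
      exact h.box j (by omega)
    · rwa [a, e2]
  · intro j hj
    rw [e1 j (by omega)]
    rcases Nat.lt_or_eq_of_le (Nat.lt_succ_iff.1 hj) with a | a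
    · rw [e1 _ (by omega)]
      exact h.step j a
    · rwa [a, e2]
  · intro j l hj hl hjl
    rcases Nat.lt_or_eq_of_le hj with a | a
    · rcases Nat.lt_or_eq_of_le hl with b | b
      · rw [e1 j (by omega), e1 l (by omega)] at hjl
        exact h.inj j l (by omega) (by omega) hjl
      · rw [e1 j (by omega), b, e2] at hjl
        exact absurd hjl (hnew j (by omega))
    · rcases Nat.lt_or_eq_of_le hl with b | b
      · rw [e1 l (by omega), a, e2] at hjl
        exact absurd hjl.symm (hnew l (by omega))
      · omega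
  · intro j hj
    unfold Good
    rw [e1 j (by omega), e1 (j - 1) (by omega)]
    rcases Nat.lt_or_eq_of_le (Nat.lt_succ_iff.1 hj) with a | a
    · rw [e1 _ (by omega)]
      exact h.good j a
    · rw [a, e2]
      exact hg

theorem Inv.bound {k : ℕ} {v : ℕ → Pt} (h : Inv n i G k v) :
    k + 1 ≤ (Fintype.piFinset (fun m => Finset.Icc (0 : ℤ) (n m))).card := by
  rw [← Finset.card_range (k + 1)]
  refine Finset.card_le_card_of_injOn v ?_ ?_
  · intro j hj
    have := h.box j (Nat.lt_succ_iff.1 (Finset.mem_range.1 hj))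
    simp only [Finset.mem_coe, Fintype.mem_piFinset, Finset.mem_Icc]
    exact this
  · intro j hj l hl hjl
    exact h.inj j l (Nat.lt_succ_iff.1 (Finset.mem_range.1 hj))
      (Nat.lt_succ_iff.1 (Finset.mem_range.1 hl)) hjl

theorem wins_of_inv (hG : Wall n i G) (d : ℕ) : ∀ (k : ℕ) (v : ℕ → Pt), Inv n i G k v →
    (Fintype.piFinset (fun m => Finset.Icc (0 : ℤ) (n m))).card ≤ k + d →
    (Odd (off i G (v k)) → Wins n Unknotted true k v) ∧
      (Even (off i G (v k)) → Wins n Unknotted false k v) := by
  induction d with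
  | zero =>
    intro k v h hc
    have := h.bound
    omega
  | succ d ih =>
    intro k v h hc
    constructor
    · intro hodd
      have h0 : off i G (v k) ≠ 0 := by
        intro h0
        rw [h0] at hodd
        exact absurd hodd (by decide)
      obtain ⟨w, a1, a2, a3, a4, a5⟩ := exists_move hG (v k) (v (k - 1)) (h.box k le_rfl) h0
      have hg : Good n i G v k w := fun _ => ⟨a4, fun hb => (a5 hb).imp id fun e => ⟨h.pos, e⟩⟩
      by_cases hnew : ∀ j ≤ k, v j ≠ w
      · refine Wins.extend k v w a1 ((adj_iff_step _ _).2 a2) hnew ?_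
        refine (ih (k + 1) _ (h.extend a1 a2 hnew hg) (by omega)).2 ?_
        rw [Function.update_self, a4]
        have := sg_cases (off i G (v k))
        rw [Int.odd_iff] at hodd
        rw [Int.even_iff]
        omega
      · push Not at hnew
        obtain ⟨s, hs, rfl⟩ := hnew
        have b1 : s ≠ k := by
          rintro rfl
          exact a2.ne rfl
        have b2 : s ≠ k - 1 := by
          rintro rfl
          exact a3 rfl
        have b3 : s + 2 ≤ k := by omega
        exact Wins.close k v s b3 ((adj_iff_step _ _).2 a2) (unknotted_loop hG h b3 a2 hg)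
    · intro heven
      have hg : ∀ w, Good n i G v k w := fun w hodd => absurd hodd (Int.not_odd_iff_even.2 heven)
      refine Wins.reply k v ?_ ?_
      · intro s hs hadj
        exact unknotted_loop hG h hs ((adj_iff_step _ _).1 hadj) (hg _)
      · intro w a1 a2 hnew
        have a2' := (adj_iff_step _ _).1 a2
        refine (ih (k + 1) _ (h.extend a1 a2' hnew (hg w)) (by omega)).1 ?_
        rw [Function.update_self]
        have := off_step hG a2'
        rw [Int.even_iff] at heven
        rw [Int.odd_iff]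
        omega

theorem inv_start {u w : Pt} (hu : InBox n u) (hw : InBox n w) (hs : Step u w)
    (hg : Odd (off i G u) → w = kap i G u) (hG : Wall n i G) : Inv n i G 1 (start u w) := by
  have e0 : start u w 0 = u := rfl
  have e1 : start u w 1 = w := rfl
  refine ⟨le_rfl, ?_, ?_, ?_, ?_⟩
  · intro j hj
    interval_cases j
    · exact hu
    · exact hw
  · intro j hj
    interval_cases j
    exact hs
  · intro j l hj hl h
    interval_cases j <;> interval_cases l
    · rfl
    · exact absurd h hs.ne
    · exact absurd h hs.ne.symm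
    · rfl
  · intro j hj
    interval_cases j
    intro hodd
    rw [e0] at hodd ⊢
    rw [zero_add, e1, hg hodd]
    exact ⟨off_kap hG u, fun _ => Or.inl rfl⟩

theorem exists_short_axis (n : Fin 3 → ℕ) : ∃ i, ∀ m, n i ≤ n m := by
  obtain ⟨i, -, hi⟩ := Finset.exists_min_image Finset.univ n Finset.univ_nonempty
  exact ⟨i, fun m => hi m (Finset.mem_univ m)⟩

theorem second_wins (n : Fin 3 → ℕ) (hn : ∀ m, 1 ≤ n m) : SecondWins n Unknotted := by
  obtain ⟨i, hi⟩ := exists_short_axis n
  obtain ⟨G, hG, -⟩ := exists_wall n i (hn i) hi 0 (Or.inl rfl)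
  intro u w hu hw hadj
  have hs := (adj_iff_step _ _).1 hadj
  have ho := off_step hG hs
  by_cases hp : Odd (off i G w)
  · left
    have hinv : Inv n i G 1 (start u w) := inv_start hu hw hs (fun h => by
      rw [Int.odd_iff] at h hp
      omega) hG
    exact (wins_of_inv hG _ 1 _ hinv (Nat.le_add_left _ _)).1 hp
  · right
    have hinv : Inv n i G 1 (start w u) := inv_start hw hu hs.symm (fun h => absurd h hp) hG
    refine (wins_of_inv hG _ 1 _ hinv (Nat.le_add_left _ _)).1 ?_
    change Odd (off i G u)
    rw [Int.odd_iff] at hp ⊢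
    omega

theorem first_wins (n : Fin 3 → ℕ) (hn : ∀ m, 1 ≤ n m) : FirstWins n Unknotted := by
  obtain ⟨i, hi⟩ := exists_short_axis n
  obtain ⟨G0, hG0, g0⟩ := exists_wall n i (hn i) hi 0 (Or.inl rfl)
  obtain ⟨G1, hG1, g1⟩ := exists_wall n i (hn i) hi 1 (Or.inr rfl)
  have d1 : i + 1 ≠ i := (by decide : ∀ i : Fin 3, i + 1 ≠ i) i
  let u : Pt := Pi.single (i + 1) 1
  let w : Pt := u + Pi.single i 1
  have hui : u i = 0 := Pi.single_eq_of_ne d1.symm _
  have hwi : w i = 1 := by simp [w, hui]
  have hcol : col i w = col i u := col_add_single _ _ _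
  have hu : InBox n u := by
    intro m
    have := hn m
    by_cases hm : m = i + 1
    · subst hm
      simp only [u, Pi.single_eq_same]
      omega
    · simp only [u, Pi.single_eq_of_ne hm]
      omega
  have hw : InBox n w := inBox_of_col hu hcol (by omega) (by have := hn i; omega)
  have hs : Step u w := ⟨i, 1, Or.inl rfl, rfl⟩
  have c0 := hG0.colEq _ _ hcol
  have c1 := hG1.colEq _ _ hcol
  have g0' : G0 u = 1 := g0
  have g1' : G1 u = 0 := g1
  refine ⟨u, w, hu, hw, (adj_iff_step _ _).2 hs, ?_, ?_⟩
  · have hinv : Inv n i G0 1 (start u w) := inv_start hu hw hs (fun _ => by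
      have : off i G0 u = -1 := by unfold off; omega
      simp only [kap, this]
      rfl) hG0
    refine (wins_of_inv hG0 _ 1 _ hinv (Nat.le_add_left _ _)).2 ?_
    change Even (off i G0 w)
    have : off i G0 w = 0 := by unfold off; omega
    rw [this]
    exact Even.zero
  · have hinv : Inv n i G1 1 (start w u) := inv_start hw hu hs.symm (fun _ => by
      have : off i G1 w = 1 := by unfold off; omega
      refine eq_of_col (hcol.symm.trans (col_kap i G1 w).symm) ?_
      rw [kap_apply, this, hui, hwi]
      rfl) hG1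
    refine (wins_of_inv hG1 _ 1 _ hinv (Nat.le_add_left _ _)).2 ?_
    change Even (off i G1 u)
    have : off i G1 u = 0 := by unfold off; omega
    rw [this]
    exact Even.zero

/-- The two players cannot both force their objectives. -/
theorem not_both {n : Fin 3 → ℕ} {A B : Set Space → Prop} (hAB : ∀ K, A K → B K → False)
    {b : Bool} {k : ℕ} {v : ℕ → Pt} (h : Wins n A b k v) : ¬ Wins n B (!b) k v := by
  induction h with
  | close k v s hs hadj hgoal =>
    intro h'
    cases h' with
    | reply _ _ hclose _ => exact hAB _ hgoal (hclose s hs hadj)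
  | extend k v w hbox hadj hnew _ ih =>
    intro h'
    cases h' with
    | reply _ _ _ hextend => exact ih (hextend w hbox hadj hnew)
  | reply k v hclose _ ih =>
    intro h'
    cases h' with
    | close _ _ s hs hadj hgoal => exact hAB _ (hclose s hs hadj) hgoal
    | extend _ _ w hbox hadj hnew hwin => exact ih w hbox hadj hnew hwin

theorem not_first_second {n : Fin 3 → ℕ} {A B : Set Space → Prop}
    (hAB : ∀ K, A K → B K → False) (h1 : FirstWins n A) (h2 : SecondWins n B) : False := by
  obtain ⟨u, w, hu, hw, hadj, a, b⟩ := h1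
  rcases h2 u w hu hw hadj with c | c
  · exact not_both hAB a c
  · exact not_both hAB b c

end Pool.Agent.Lib.MP_fb72b7_co
end
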